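import Pool.Agent.X232.CF.G.Ring
set_option autoImplicit false

/-!
The coordinate ring of the curve `(1 - y²) ∏ (1 - x/α_i) = 1` as a quadratic extension of the ring of
polynomials in `x`.
-/

namespace Pool.Agent.X232.CF.G

open Polynomial

open Pool.Agent.TH826.MH (CRing fpol fx ux eqn coe_ux prod_eq_one)

open Pool.Agent.TH265.U (rr)

open Pool.Agent.TH265.V

open Pool.Agent.X232.CU (phi ev ev_surj ev_C ev_X phi_C phi_X phi_prod pl pl_phi pl_C pl_X_self
  pl_X_other xi xi_const ti ti_ne_zero order_ti ti_eq const_eval od_coe)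

open Pool.Agent.X232.CF.E (PS PS_C ti_X order_X PS_ne X2_dvd_of_order order_eval_ti eval_ti_ne)

variable {K : Type*} [Field K] {r : ℕ} {α : Fin (r + 1) → K} {S : K[X]}

/-- the polynomial with the roots `α i` -/
noncomputable def DD (α : Fin (r + 1) → K) : K[X] := ∏ i, (X - C (α i))

theorem DD_monic : (DD α).Monic := monic_prod_of_monic _ _ fun i _ => monic_X_sub_C _

theorem DD_ne : DD α ≠ 0 := DD_monic.ne_zero

theorem natDegree_DD : (DD α).natDegree = r + 1 := by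
  unfold DD
  rw [natDegree_prod_of_monic _ _ fun i _ => monic_X_sub_C _]
  simp

theorem DD_zero : (DD α).eval 0 = ∏ i, -α i := by
  unfold DD
  rw [eval_prod]
  simp

/-- The conditions on the roots. -/
structure Hyp (α : Fin (r + 1) → K) (S : K[X]) : Prop where
  inj : Function.Injective α
  ne : ∀ i, α i ≠ 0
  hr : 1 ≤ r
  two : (2 : K) ≠ 0
  eq : DD α = C ((DD α).eval 0) + X ^ 2 * S
  ns : ∀ a : K, a ^ 2 ≠ S.eval 0 * (DD α).eval 0

variable (h : Hyp α S)

include h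

theorem Hyp.kap_ne : (DD α).eval 0 ≠ 0 := by
  rw [DD_zero, Finset.prod_ne_zero_iff]
  exact fun i _ => neg_ne_zero.2 (h.ne i)

theorem Hyp.hl : lm α ≠ 0 := by
  unfold lm
  rw [← DD_zero]
  exact neg_ne_zero.2 (inv_ne_zero h.kap_ne)

theorem Hyp.lm_mul : lm α * (DD α).eval 0 = -1 := by
  unfold lm
  rw [← DD_zero, neg_mul, inv_mul_cancel₀ h.kap_ne]

theorem Hyp.ha : ∀ k, Function.Injective (rts 1 (-1) α k) := by
  intro k
  refine Fin.cases ?_ (fun l => ?_) k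
  · intro i j hij
    have h1 : (-1 : K) ^ (i : ℕ) = (-1) ^ (j : ℕ) := hij
    have hi : (i : ℕ) < 2 := i.isLt
    have hj : (j : ℕ) < 2 := j.isLt
    have h2 := h.two
    apply Fin.ext
    interval_cases hi' : (i : ℕ) <;> interval_cases hj' : (j : ℕ)
    · rfl
    · exfalso
      apply h2
      linear_combination h1
    · exfalso
      apply h2
      linear_combination -h1
    · rfl
  · exact h.inj

omit h in
/-- polynomials in `x` -/
noncomputable abbrev p1 (α : Fin (r + 1) → K) : K[X] →+* Crv 1 (-1) α :=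
  phi (lm α) (rts 1 (-1) α) 1

omit h in
/-- the function `y` -/
noncomputable def yy (α : Fin (r + 1) → K) : Crv 1 (-1) α :=
  fpol (lm α) (rts 1 (-1) α) (MvPolynomial.X 0)

omit h in
theorem rel0 : p1 α (C (lm α)) * ((yy α - 1) * (yy α + 1)) * p1 α (DD α) = 1 := by
  have h1 := prod_eq_one (lm α) (rts 1 (-1) α)
  rw [Fin.prod_univ_two] at h1
  have h2 : p1 α (DD α) = ∏ i, fx (lm α) (rts 1 (-1) α) 1 (rts 1 (-1) α 1 i) :=
    phi_prod (lam := lm α) (a := rts 1 (-1) α) 1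
  have h3 : ∏ i, fx (lm α) (rts 1 (-1) α) 0 (rts 1 (-1) α 0 i) = (yy α - 1) * (yy α + 1) := by
    have e : ∏ i, fx (lm α) (rts 1 (-1) α) 0 (rts 1 (-1) α 0 i) =
        ∏ i : Fin 2, (yy α - fpol (lm α) (rts 1 (-1) α) (MvPolynomial.C ((-1) ^ (i : ℕ)))) := by
      refine Finset.prod_congr rfl fun i _ => ?_
      unfold fx
      rw [map_sub]
      rfl
    rw [e, Fin.prod_univ_two]
    simp
  rw [h3, ← h2] at h1
  rw [phi_C]
  linear_combination h1

theorem Hyp.y_sq : yy α ^ 2 * p1 α (DD α) = p1 α (X ^ 2 * S) := by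
  have h1 := rel0 (α := α)
  have h2 : p1 α (C (lm α)) * p1 α (C ((DD α).eval 0)) = -1 := by
    rw [← map_mul, ← C_mul, h.lm_mul, C_neg, map_neg, C_1, map_one]
  have h3 : p1 α (DD α) = p1 α (C ((DD α).eval 0)) + p1 α (X ^ 2 * S) := by
    conv_lhs => rw [h.eq]
    rw [map_add]
  linear_combination (-p1 α (C ((DD α).eval 0))) * h1 + (yy α ^ 2 - 1) * p1 α (DD α) * h2 + h3

/-- representation by polynomials -/
theorem Hyp.exists_pq (a : Crv 1 (-1) α) : ∃ (k : ℕ) (p q : K[X]),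
    a * p1 α (DD α) ^ k = p1 α p + p1 α q * yy α := by
  have hmul : ∀ (a : Crv 1 (-1) α), (∃ (k : ℕ) (p q : K[X]),
      a * p1 α (DD α) ^ k = p1 α p + p1 α q * yy α) → ∃ (k : ℕ) (p q : K[X]),
      a * yy α * p1 α (DD α) ^ k = p1 α p + p1 α q * yy α := by
    rintro a ⟨k, p, q, hpq⟩
    refine ⟨k + 1, q * (X ^ 2 * S), p * DD α, ?_⟩
    rw [map_mul, map_mul (p1 α) p, ← h.y_sq]
    linear_combination (yy α * p1 α (DD α)) * hpq
  have hadd : ∀ (a b : Crv 1 (-1) α), (∃ (k : ℕ) (p q : K[X]),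
      a * p1 α (DD α) ^ k = p1 α p + p1 α q * yy α) → (∃ (k : ℕ) (p q : K[X]),
      b * p1 α (DD α) ^ k = p1 α p + p1 α q * yy α) → ∃ (k : ℕ) (p q : K[X]),
      (a + b) * p1 α (DD α) ^ k = p1 α p + p1 α q * yy α := by
    rintro a b ⟨k, p, q, h1⟩ ⟨k', p', q', h2⟩
    refine ⟨k + k', p * DD α ^ k' + p' * DD α ^ k, q * DD α ^ k' + q' * DD α ^ k, ?_⟩
    simp only [map_add, map_mul, map_pow]
    linear_combination (p1 α (DD α) ^ k') * h1 + (p1 α (DD α) ^ k) * h2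
  have hmon : ∀ (c : K[X]) (n : ℕ), ∃ (k : ℕ) (p q : K[X]),
      (p1 α c * yy α ^ n) * p1 α (DD α) ^ k = p1 α p + p1 α q * yy α := by
    intro c n
    induction n with
    | zero => exact ⟨0, c, 0, by simp⟩
    | succ n ih =>
      have := hmul _ ih
      rwa [mul_assoc, ← pow_succ] at this
  obtain ⟨P, rfl⟩ := ev_surj (lam := lm α) (a := rts 1 (-1) α) 1 a
  induction P using Polynomial.induction_on' with
  | add p q hp hq => rw [map_add]; exact hadd _ _ hp hq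
  | monomial n c =>
    have e : ev (lm α) (rts 1 (-1) α) 1 (monomial n c) = p1 α c * yy α ^ n := by
      rw [← C_mul_X_pow_eq_monomial, map_mul, map_pow, ev_C, ev_X]
      rfl
    rw [e]
    exact hmon c n

omit h in
/-- the index of the place `y = 1`, `x = ∞` -/
abbrev j0 : Fin (rr 1 r 0 + 1) := (0 : Fin 2)

omit h in
/-- the index of the place `y = -1`, `x = ∞` -/
abbrev j1 : Fin (rr 1 r 0 + 1) := (1 : Fin 2)

/-- the values of polynomials in `x` at the places over `x = ∞` -/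
theorem Hyp.pl0_p1 (j : Fin (rr 1 r 0 + 1)) (c : K[X]) :
    pl h.hl h.ha 0 j (p1 α c) = c.eval₂ HahnSeries.C (ti K) := by
  have e : (pl h.hl h.ha 0 j).comp (p1 α) = eval₂RingHom HahnSeries.C (ti K) := by
    refine ringHom_ext' (RingHom.ext fun x => ?_) ?_
    · show pl h.hl h.ha 0 j (p1 α (C x)) = (C x : K[X]).eval₂ _ _
      rw [phi_C, pl_C, eval₂_C]
    · show pl h.hl h.ha 0 j (p1 α X) = (X : K[X]).eval₂ _ _
      rw [phi_X, eval₂_X]
      exact pl_X_other h.hl h.ha 0 j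
  exact congrArg (fun g => g c) e

theorem Hyp.pl0_yy (j : Fin (rr 1 r 0 + 1)) :
    pl h.hl h.ha 0 j (yy α) = PS K (xi h.hl h.ha 0 j) := pl_X_self h.hl h.ha 0 j

theorem Hyp.xi0_const (j : Fin (rr 1 r 0 + 1)) :
    PowerSeries.constantCoeff (xi h.hl h.ha 0 j) = (-1) ^ (j : ℕ) := xi_const h.hl h.ha 0 j

/-- the difference of the two values of `y` at infinity -/
theorem Hyp.cc_sub : PowerSeries.constantCoeff
    (xi h.hl h.ha 0 j0 - xi h.hl h.ha 0 j1) ≠ 0 := by
  rw [map_sub]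
  have h1 := h.xi0_const j0
  have h2 := h.xi0_const j1
  have h3 : PowerSeries.constantCoeff (xi h.hl h.ha 0 j0) -
      PowerSeries.constantCoeff (xi h.hl h.ha 0 j1) = 2 := by
    rw [h1, h2]
    show (-1 : K) ^ 0 - (-1) ^ 1 = 2
    norm_num
  rw [h3]
  exact h.two

theorem Hyp.pq_unique {p q : K[X]} (hpq : p1 α p + p1 α q * yy α = 0) : p = 0 ∧ q = 0 := by
  have key : ∀ j : Fin (rr 1 r 0 + 1), p.eval₂ HahnSeries.C (ti K) + q.eval₂ HahnSeries.C (ti K) *
      PS K (xi h.hl h.ha 0 j) = 0 := by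
    intro j
    have h1 := congrArg (pl h.hl h.ha 0 j) hpq
    rwa [map_zero, map_add, map_mul, h.pl0_p1, h.pl0_p1, h.pl0_yy] at h1
  have h0 := key j0
  have h1 := key j1
  have h2 : q.eval₂ HahnSeries.C (ti K) *
      PS K (xi h.hl h.ha 0 j0 - xi h.hl h.ha 0 j1) = 0 := by
    rw [map_sub]
    linear_combination h0 - h1
  have hq : q = 0 := by
    by_contra hq
    exact mul_ne_zero (eval_ti_ne hq) (PS_ne h.cc_sub) h2
  refine ⟨?_, hq⟩
  by_contra hp
  rw [hq, eval₂_zero, zero_mul, add_zero] at h0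
  exact eval_ti_ne hp h0

section places

variable (i : Fin (rr 1 r 1 + 1))

/-- the series at the place over `x = α i`, `y = ∞` -/
theorem Hyp.pl1_pq (p q : K[X]) : pl h.hl h.ha 1 i (p1 α p + p1 α q * yy α) =
    ti K * PS K (PowerSeries.X * p.eval₂ PowerSeries.C (xi h.hl h.ha 1 i) +
      q.eval₂ PowerSeries.C (xi h.hl h.ha 1 i)) := by
  have e1 : ∀ c : K[X], pl h.hl h.ha 1 i (p1 α c) =
      PS K (c.eval₂ PowerSeries.C (xi h.hl h.ha 1 i)) := fun c => pl_phi h.hl h.ha 1 i c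
  have e2 : pl h.hl h.ha 1 i (yy α) = ti K := pl_X_other h.hl h.ha 1 i
  rw [map_add, map_mul, e1, e1, e2, map_add, map_mul]
  linear_combination (-PS K (p.eval₂ PowerSeries.C (xi h.hl h.ha 1 i))) * ti_X (K := K)

theorem Hyp.order_D : (pl h.hl h.ha 1 i (p1 α (DD α))).order = 2 := by
  have h1 := CU.sum_ord1 h.hl h.ha i
  have h2 : ((∏ j, ux (lm α) (rts 1 (-1) α) 1 j : (Crv 1 (-1) α)ˣ) : Crv 1 (-1) α) =
      p1 α (DD α) := by
    rw [Units.coe_prod]
    have h2 : p1 α (DD α) = ∏ i, fx (lm α) (rts 1 (-1) α) 1 (rts 1 (-1) α 1 i) :=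
      phi_prod (lam := lm α) (a := rts 1 (-1) α) 1
    rw [h2]
    exact Finset.prod_congr rfl fun j _ => coe_ux _ _ _ _
  have h3 : CU.ord h.hl h.ha 1 i (∏ j, ux (lm α) (rts 1 (-1) α) 1 j) = 2 := by
    rw [CU.ord_prod, Finset.sum_eq_single i]
    · rw [h1]
      rfl
    · intro j _ hj
      exact CU.ord_self_ne h.hl h.ha 1 i j hj
    · intro hi
      exact absurd (Finset.mem_univ i) hi
  unfold CU.ord CU.od at h3
  rw [← h2]
  exact h3

theorem Hyp.X2_dvd_xi : (PowerSeries.X : PowerSeries K) ^ 2 ∣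
    xi h.hl h.ha 1 i - PowerSeries.C (rts 1 (-1) α 1 i) := by
  refine X2_dvd_of_order ?_
  have h1 := CU.sum_ord1 h.hl h.ha i
  unfold CU.ord CU.od at h1
  have h2 : (pl h.hl h.ha 1 i (ux (lm α) (rts 1 (-1) α) 1 i : Crv 1 (-1) α)).order = 2 := by
    rw [show (2 : ℤ) = ((Pool.Agent.TH265.U.rr 1 r 0 : ℕ) : ℤ) + 1 from rfl]
    exact h1
  rw [coe_ux] at h2
  unfold fx at h2
  rw [map_sub, map_sub, pl_X_self, pl_C, ← HahnSeries.ofPowerSeries_C, ← map_sub] at h2
  exact h2.ge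

theorem Hyp.X2_dvd_eval (p : K[X]) : (PowerSeries.X : PowerSeries K) ^ 2 ∣
    p.eval₂ PowerSeries.C (xi h.hl h.ha 1 i) - PowerSeries.C (p.eval (rts 1 (-1) α 1 i)) := by
  refine (h.X2_dvd_xi i).trans ?_
  have h1 := sub_dvd_eval_sub (xi h.hl h.ha 1 i) (PowerSeries.C (rts 1 (-1) α 1 i)) (p.map PowerSeries.C)
  rwa [eval_map, eval_map, eval₂_at_apply] at h1

theorem Hyp.coeffs (p q : K[X]) :
    PowerSeries.coeff 0 (PowerSeries.X * p.eval₂ PowerSeries.C (xi h.hl h.ha 1 i) +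
      q.eval₂ PowerSeries.C (xi h.hl h.ha 1 i)) = q.eval (rts 1 (-1) α 1 i) ∧
    PowerSeries.coeff 1 (PowerSeries.X * p.eval₂ PowerSeries.C (xi h.hl h.ha 1 i) +
      q.eval₂ PowerSeries.C (xi h.hl h.ha 1 i)) = p.eval (rts 1 (-1) α 1 i) := by
  have hp : ∀ p : K[X], PowerSeries.coeff 0 (p.eval₂ PowerSeries.C (xi h.hl h.ha 1 i)) =
      p.eval (rts 1 (-1) α 1 i) := by
    intro p
    have h1 := PowerSeries.X_pow_dvd_iff.1 (h.X2_dvd_eval i p) 0 (by norm_num)
    rw [map_sub, sub_eq_zero] at h1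
    rw [h1]
    simp
  have hq : PowerSeries.coeff 1 (q.eval₂ PowerSeries.C (xi h.hl h.ha 1 i)) = 0 := by
    have h1 := PowerSeries.X_pow_dvd_iff.1 (h.X2_dvd_eval i q) 1 (by norm_num)
    rw [map_sub, sub_eq_zero] at h1
    rw [h1, PowerSeries.coeff_C]
    simp
  constructor
  · rw [map_add, hp, PowerSeries.coeff_zero_X_mul, zero_add]
  · rw [map_add, hq, add_zero]
    have : PowerSeries.coeff (0 + 1) (PowerSeries.X *
      p.eval₂ PowerSeries.C (xi h.hl h.ha 1 i)) = _ := PowerSeries.coeff_succ_X_mul 0 _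
    rw [← hp p, ← this]

end places

end Pool.Agent.X232.CF.G
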