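import Pool.Agent.X232.CF.G.Alg
set_option autoImplicit false

/-!
Functions without zeros and poles outside of `x = 0` on the curve `(1 - y²) ∏ (1 - x/α_i) = 1` are
constant.
-/

namespace Pool.Agent.X232.CF.G

open Polynomial

open Pool.Agent.TH826.MH (CRing fpol fx ux eqn coe_ux prod_eq_one)

open Pool.Agent.TH265.U (rr Loc toLoc liftLoc liftLoc_toLoc isUnit_toLoc)

open Pool.Agent.TH265.V

open Pool.Agent.X232.CU (phi pl xi xi_const ti ti_ne_zero order_ti ti_eq const_eval od_coe)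

open Pool.Agent.X232.CF.E (PS PS_C ti_X order_X PS_ne order_eval_ti eval_ti_ne)

section poly

variable {K : Type*} [Field K]

theorem eq_C_mul_X_pow {n : K[X]} {N : ℕ} (h : n ∣ X ^ N) :
    ∃ (c : K) (i : ℕ), c ≠ 0 ∧ n = C c * X ^ i ∧ n.natDegree = i := by
  obtain ⟨i, -, h1⟩ := (dvd_prime_pow prime_X _).1 h
  obtain ⟨u, hu⟩ := h1.symm
  obtain ⟨c, hc, hc'⟩ := Polynomial.isUnit_iff.1 u.isUnit
  have e : n = C c * X ^ i := by rw [← hu, ← hc', mul_comm]
  exact ⟨c, i, hc.ne_zero, e, by rw [e, natDegree_C_mul_X_pow _ _ hc.ne_zero]⟩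

theorem lemA {T : K[X]} (hns : ∀ a : K, a ^ 2 ≠ T.eval 0) {c : K} {r : ℕ} (hr : 1 ≤ r) :
    ∀ (m : ℕ) (p q : K[X]), (q ≠ 0 → q.natDegree + r ≤ m) →
      p ^ 2 - q ^ 2 * T = C c * X ^ (2 * m) → q = 0 := by
  intro m
  induction m with
  | zero =>
    intro p q hd _
    by_contra hq
    have := hd hq
    omega
  | succ m ih =>
    intro p q hd he
    by_contra hq
    have h0 : p.eval 0 ^ 2 - q.eval 0 ^ 2 * T.eval 0 = 0 := by
      have h1 := congrArg (eval 0) he
      simp only [eval_sub, eval_mul, eval_pow, eval_C, eval_X] at h1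
      rw [h1, zero_pow (by omega), mul_zero]
    have hq0 : q.eval 0 = 0 := by
      by_contra hq0
      apply hns (p.eval 0 / q.eval 0)
      rw [div_pow, div_eq_iff (pow_ne_zero _ hq0)]
      linear_combination h0
    have hp0 : p.eval 0 = 0 := by
      rw [hq0] at h0
      have : p.eval 0 ^ 2 = 0 := by linear_combination h0
      exact pow_eq_zero_iff (two_ne_zero) |>.1 this
    have hdvd : ∀ p : K[X], p.eval 0 = 0 → X ∣ p := by
      intro p hp
      rw [X_dvd_iff, coeff_zero_eq_eval_zero]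
      exact hp
    obtain ⟨p', rfl⟩ := hdvd p hp0
    obtain ⟨q', rfl⟩ := hdvd q hq0
    have hq' : q' ≠ 0 := by
      rintro rfl
      exact hq (mul_zero _)
    have h1 := hd hq
    rw [natDegree_X_mul hq'] at h1
    refine hq' (ih p' q' (fun _ => by omega) ?_)
    have h2 : (X : K[X]) ^ 2 * (p' ^ 2 - q' ^ 2 * T) = X ^ 2 * (C c * X ^ (2 * m)) := by
      rw [show 2 * (m + 1) = 2 * m + 2 by ring, pow_add] at he
      linear_combination he
    exact mul_left_cancel₀ (pow_ne_zero _ X_ne_zero) h2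

/-- The equation of the norms. -/
theorem lemB {D S : K[X]} (hns : ∀ a : K, a ^ 2 ≠ (D * S).eval 0) {r : ℕ} (hr : 1 ≤ r)
    (hD : D.natDegree = r + 1) (hS : (X ^ 2 * S).natDegree ≤ r + 1) {l l' : ℕ}
    {p q p' q' : K[X]} (hp : p.natDegree ≤ l) (hq : q ≠ 0 → q.natDegree + (r + 1) ≤ l)
    (hp' : p'.natDegree ≤ l') (hq' : q' ≠ 0 → q'.natDegree + (r + 1) ≤ l')
    (h1 : p * p' + q * q' * (D * (X ^ 2 * S)) = X ^ (l + l')) (h2 : p * q' + p' * q = 0) :
    q = 0 ∧ ∃ c, c ≠ 0 ∧ p = C c * X ^ l := by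
  set n : K[X] := p ^ 2 - q ^ 2 * (D * (X ^ 2 * S)) with hn
  set n' : K[X] := p' ^ 2 - q' ^ 2 * (D * (X ^ 2 * S)) with hn'
  have h3 : n * n' = X ^ (2 * (l + l')) := by
    rw [hn, hn', mul_comm 2, pow_mul, ← h1]
    linear_combination (-(D * (X ^ 2 * S)) * (p * q' + p' * q)) * h2
  have hdeg : ∀ (p q : K[X]) (l : ℕ), p.natDegree ≤ l → (q ≠ 0 → q.natDegree + (r + 1) ≤ l) →
      (p ^ 2 - q ^ 2 * (D * (X ^ 2 * S))).natDegree ≤ 2 * l := by
    intro p q l hp hq
    refine (natDegree_sub_le _ _).trans (max_le ?_ ?_)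
    · rw [natDegree_pow]
      omega
    · by_cases hq0 : q = 0
      · rw [hq0]
        simp
      · have := hq hq0
        refine natDegree_mul_le.trans ?_
        rw [natDegree_pow]
        have h4 : (D * (X ^ 2 * S)).natDegree ≤ (r + 1) + (r + 1) :=
          natDegree_mul_le.trans (by omega)
        omega
  have hd : n.natDegree ≤ 2 * l := hdeg p q l hp hq
  have hd' : n'.natDegree ≤ 2 * l' := hdeg p' q' l' hp' hq'
  have hn0 : n ≠ 0 := by
    intro h
    rw [h, zero_mul] at h3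
    exact pow_ne_zero _ X_ne_zero h3.symm
  have hn0' : n' ≠ 0 := by
    intro h
    rw [h, mul_zero] at h3
    exact pow_ne_zero _ X_ne_zero h3.symm
  have hsum := congrArg natDegree h3
  rw [natDegree_mul hn0 hn0', natDegree_X_pow] at hsum
  obtain ⟨c, i, hc, e, hi⟩ := eq_C_mul_X_pow (Dvd.intro _ h3)
  have hil : i = 2 * l := by omega
  subst hil
  have hq0 : q = 0 := by
    by_contra hq0
    have h5 := hq hq0
    obtain ⟨m, rfl⟩ : ∃ m, l = m + 1 := ⟨l - 1, by omega⟩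
    have hXp : X ∣ p := by
      have h6 : X ∣ p ^ 2 := by
        have h7 : p ^ 2 = X * (q ^ 2 * (D * (X * S)) + C c * X ^ (2 * m + 1)) := by
          rw [hn] at e
          rw [show 2 * (m + 1) = (2 * m + 1) + 1 by ring, pow_succ] at e
          linear_combination e
        exact Dvd.intro _ h7.symm
      exact prime_X.dvd_of_dvd_pow h6
    obtain ⟨p1, rfl⟩ := hXp
    refine hq0 (lemA (T := D * S) hns hr m p1 q (fun h => by have := hq h; omega) ?_ (c := c))
    have h2 : (X : K[X]) ^ 2 * (p1 ^ 2 - q ^ 2 * (D * S)) = X ^ 2 * (C c * X ^ (2 * m)) := by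
      rw [hn] at e
      rw [show 2 * (m + 1) = 2 * m + 2 by ring, pow_add] at e
      linear_combination e
    exact mul_left_cancel₀ (pow_ne_zero _ X_ne_zero) h2
  refine ⟨hq0, ?_⟩
  have e2 : p ^ 2 = C c * X ^ (2 * l) := by
    rw [hn, hq0] at e
    linear_combination e
  have hdvd : p ∣ X ^ (2 * l) := by
    refine Dvd.intro (p * C c⁻¹) ?_
    have h8 : C c * C c⁻¹ = (1 : K[X]) := by rw [← C_mul, mul_inv_cancel₀ hc, C_1]
    linear_combination (C c⁻¹) * e2 + X ^ (2 * l) * h8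
  obtain ⟨c', j, hc', e', hj⟩ := eq_C_mul_X_pow hdvd
  have h9 := congrArg natDegree e2
  rw [natDegree_pow, natDegree_C_mul_X_pow _ _ hc, hj] at h9
  have hjl : j = l := by omega
  subst hjl
  exact ⟨c', hc', e'⟩

end poly

variable {K : Type*} [Field K] {r : ℕ} {α : Fin (r + 1) → K} {S : K[X]} (h : Hyp α S)

theorem coeff_of_order {s : PowerSeries K} {n : ℤ} (hs : n ≤ (ti K * PS K s).order) (m : ℕ)
    (hm : (m : ℤ) < n + 1) : PowerSeries.coeff m s = 0 := by
  by_cases h0 : s = 0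
  · rw [h0, map_zero]
  · have hne : PS K s ≠ 0 := by
      rw [Ne, map_eq_zero_iff _ HahnSeries.ofPowerSeries_injective]
      exact h0
    rw [HahnSeries.order_mul ti_ne_zero hne, order_ti] at hs
    rw [← HahnSeries.ofPowerSeries_apply_coeff (Γ := ℤ)]
    exact HahnSeries.coeff_eq_zero_of_lt_order (show (m : ℤ) < (PS K s).order by omega)

include h

theorem Hyp.dvd_of_roots {p : K[X]} (hp : ∀ i, p.eval (α i) = 0) : DD α ∣ p := by
  refine Finset.prod_dvd_of_coprime ?_ fun i _ => dvd_iff_isRoot.2 (hp i)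
  intro i _ j _ hij
  exact isCoprime_X_sub_C_of_isUnit_sub (sub_ne_zero_of_ne (h.inj.ne hij)).isUnit

theorem Hyp.reduce [Infinite K] {a : Crv 1 (-1) α}
    (ho : ∀ i : Fin (rr 1 r 1 + 1), 0 ≤ (pl h.hl h.ha 1 i a).order) :
    ∃ p q : K[X], a = p1 α p + p1 α (q * DD α) * yy α := by
  have hdom : IsDomain (Crv 1 (-1) α) := isDomain_Crv h.hl h.ha
  have hD0 : p1 α (DD α) ≠ 0 := phi_inj h.hl h.ha _ DD_ne
  obtain ⟨k, p, q, hk⟩ := h.exists_pq a
  induction k generalizing p q with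
  | zero =>
    rw [pow_zero, mul_one] at hk
    have hq : ∀ i : Fin (rr 1 r 1 + 1), q.eval (rts 1 (-1) α 1 i) = 0 := by
      intro i
      have h1 := ho i
      rw [hk, h.pl1_pq] at h1
      have h2 := coeff_of_order h1 0 (by norm_num)
      rw [(h.coeffs i p q).1] at h2
      exact h2
    obtain ⟨q', rfl⟩ := h.dvd_of_roots hq
    exact ⟨p, q', by rw [hk, mul_comm q']⟩
  | succ k ih =>
    by_cases ha0 : a = 0
    · exact ⟨0, 0, by rw [ha0]; simp⟩
    have key : ∀ i : Fin (rr 1 r 1 + 1), q.eval (rts 1 (-1) α 1 i) = 0 ∧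
        p.eval (rts 1 (-1) α 1 i) = 0 := by
      intro i
      have h1 : (2 : ℤ) ≤ (pl h.hl h.ha 1 i (p1 α p + p1 α q * yy α)).order := by
        have hinj := CU.pl_inj h.hl h.ha 1 i
        rw [← hk, map_mul, map_pow, HahnSeries.order_mul
          (by rw [Ne, map_eq_zero_iff _ hinj]; exact ha0)
          (pow_ne_zero _ (by rw [Ne, map_eq_zero_iff _ hinj]; exact hD0)), HahnSeries.order_pow,
          h.order_D]
        have := ho i
        simp only [nsmul_eq_mul]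
        push_cast
        nlinarith
      rw [h.pl1_pq] at h1
      have h2 := coeff_of_order h1 0 (by norm_num)
      have h3 := coeff_of_order h1 1 (by norm_num)
      rw [(h.coeffs i p q).1] at h2
      rw [(h.coeffs i p q).2] at h3
      exact ⟨h2, h3⟩
    obtain ⟨p', rfl⟩ := h.dvd_of_roots fun i => (key i).2
    obtain ⟨q', rfl⟩ := h.dvd_of_roots fun i => (key i).1
    refine ih p' q' ?_
    refine mul_right_cancel₀ hD0 ?_
    rw [mul_assoc, ← pow_succ, hk]
    simp only [map_mul]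
    ring

theorem Hyp.degs {l : ℕ} {p q : K[X]} (ho : ∀ j : Fin (rr 1 r 0 + 1),
    -(l : ℤ) ≤ (pl h.hl h.ha 0 j (p1 α p + p1 α q * yy α)).order) :
    p.natDegree ≤ l ∧ (q ≠ 0 → q.natDegree ≤ l) := by
  have e : ∀ j : Fin (rr 1 r 0 + 1), pl h.hl h.ha 0 j (p1 α p + p1 α q * yy α) =
      p.eval₂ HahnSeries.C (ti K) + q.eval₂ HahnSeries.C (ti K) * PS K (xi h.hl h.ha 0 j) := by
    intro j
    rw [map_add, map_mul, h.pl0_p1, h.pl0_p1, h.pl0_yy]
  have hsub : ∀ {x y : HahnSeries ℤ K}, -(l : ℤ) ≤ x.order → -(l : ℤ) ≤ y.order → x - y ≠ 0 →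
      -(l : ℤ) ≤ (x - y).order := by
    intro x y hx hy hxy
    rw [sub_eq_add_neg] at hxy ⊢
    have h1 := HahnSeries.min_order_le_order_add hxy
    rw [HahnSeries.order_neg] at h1
    exact (le_min hx hy).trans h1
  have hq : q ≠ 0 → q.natDegree ≤ l := by
    intro hq
    have e2 : pl h.hl h.ha 0 j0 (p1 α p + p1 α q * yy α) -
        pl h.hl h.ha 0 j1 (p1 α p + p1 α q * yy α) = q.eval₂ HahnSeries.C (ti K) *
          PS K (xi h.hl h.ha 0 j0 - xi h.hl h.ha 0 j1) := by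
      rw [e, e, map_sub]
      ring
    have hne : q.eval₂ HahnSeries.C (ti K) *
          PS K (xi h.hl h.ha 0 j0 - xi h.hl h.ha 0 j1) ≠ 0 :=
      mul_ne_zero (eval_ti_ne hq) (PS_ne h.cc_sub)
    have h1 := hsub (ho j0) (ho j1) (by rw [e2]; exact hne)
    rw [e2, HahnSeries.order_mul (eval_ti_ne hq) (PS_ne h.cc_sub), order_eval_ti hq,
      od_coe h.cc_sub] at h1
    omega
  refine ⟨?_, hq⟩
  by_cases hp : p = 0
  · rw [hp, natDegree_zero]
    exact Nat.zero_le _
  · have hY : PowerSeries.constantCoeff (xi h.hl h.ha 0 j0) ≠ 0 := by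
      rw [h.xi0_const]
      exact pow_ne_zero _ (neg_ne_zero.2 one_ne_zero)
    have h2 : -(l : ℤ) ≤ (q.eval₂ HahnSeries.C (ti K) * PS K (xi h.hl h.ha 0 j0)).order := by
      by_cases hq0 : q = 0
      · rw [hq0, eval₂_zero, zero_mul, HahnSeries.order_zero]
        omega
      · rw [HahnSeries.order_mul (eval_ti_ne hq0) (PS_ne hY), order_eval_ti hq0, od_coe hY]
        have := hq hq0
        omega
    have e3 : p.eval₂ HahnSeries.C (ti K) = pl h.hl h.ha 0 j0 (p1 α p + p1 α q * yy α) -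
        q.eval₂ HahnSeries.C (ti K) * PS K (xi h.hl h.ha 0 j0) := by
      rw [e]
      ring
    have h3 := hsub (ho j0) h2 (by rw [← e3]; exact eval_ti_ne hp)
    rw [← e3, order_eval_ti hp] at h3
    omega

/-- the main step -/
theorem Hyp.const_aux [Infinite K] {l l' : ℕ} {a a' : Crv 1 (-1) α}
    (haa : a * a' = fX 1 (-1) α ^ (l + l'))
    (h1 : ∀ i : Fin (rr 1 r 1 + 1), 0 ≤ (pl h.hl h.ha 1 i a).order)
    (h1' : ∀ i : Fin (rr 1 r 1 + 1), 0 ≤ (pl h.hl h.ha 1 i a').order)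
    (h0 : ∀ j : Fin (rr 1 r 0 + 1), -(l : ℤ) ≤ (pl h.hl h.ha 0 j a).order)
    (h0' : ∀ j : Fin (rr 1 r 0 + 1), -(l' : ℤ) ≤ (pl h.hl h.ha 0 j a').order) :
    ∃ c : K, c ≠ 0 ∧ a = p1 α (C c) * fX 1 (-1) α ^ l := by
  obtain ⟨p, q, rfl⟩ := h.reduce h1
  obtain ⟨p', q', rfl⟩ := h.reduce h1'
  obtain ⟨d1, d2⟩ := h.degs h0
  obtain ⟨d1', d2'⟩ := h.degs h0'
  have hfX : fX 1 (-1) α = p1 α X := phi_one_X.symm
  have hy := h.y_sq
  have e : p1 α (p * p' + q * q' * (DD α * (X ^ 2 * S)) - X ^ (l + l')) +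
      p1 α ((p * q' + p' * q) * DD α) * yy α = 0 := by
    have e1 := haa
    rw [hfX] at e1
    simp only [map_mul, map_add, map_sub, map_pow] at e1 hy ⊢
    linear_combination e1 - (p1 α q * p1 α q' * p1 α (DD α)) * hy
  obtain ⟨e1, e2⟩ := h.pq_unique e
  have e2' : p * q' + p' * q = 0 := (mul_eq_zero.1 e2).resolve_right DD_ne
  have e1' : p * p' + q * q' * (DD α * (X ^ 2 * S)) = X ^ (l + l') := sub_eq_zero.1 e1
  have hS : (X ^ 2 * S : K[X]).natDegree ≤ r + 1 := by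
    have e3 : (X ^ 2 * S : K[X]) = DD α - C ((DD α).eval 0) := by
      have := h.eq
      linear_combination -this
    rw [e3, natDegree_sub_C, natDegree_DD]
  have hns : ∀ a : K, a ^ 2 ≠ (DD α * S).eval 0 := by
    intro a
    rw [eval_mul, mul_comm]
    exact h.ns a
  have hdd : ∀ (q : K[X]) (l : ℕ), (q * DD α ≠ 0 → (q * DD α).natDegree ≤ l) →
      (q ≠ 0 → q.natDegree + (r + 1) ≤ l) := by
    intro q l hq hq0
    have := hq (mul_ne_zero hq0 DD_ne)
    rwa [natDegree_mul hq0 DD_ne, natDegree_DD] at this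
  obtain ⟨hq, c, hc, hp⟩ := lemB hns h.hr natDegree_DD hS d1 (hdd q l d2) d1' (hdd q' l' d2')
    e1' e2'
  refine ⟨c, hc, ?_⟩
  rw [hq, hp, hfX]
  simp only [zero_mul, map_zero, add_zero, map_mul, map_pow]

end Pool.Agent.X232.CF.G
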