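import Pool.Agent.X232.CF.G.Loop
set_option autoImplicit false

/-!
Nonvanishing of the determinant of the regulators, for a family of radii.
-/

namespace Pool.Agent.X232.CF.G

open Pool.Agent.TH826.MK
open Pool.Agent.TH826.MH (wt abs_wt_le wt_self wt_ne)
open Pool.Agent.TH265.U (toLoc)
open Pool.Agent.TH265.V

universe v

theorem _root_.Pool.Agent.TH265.V.Sep.mono {r : ℕ} {a : Fin (r + 1) → ℂ} {i0 : Fin (r + 1)}
    {d d' : ℝ} (h : Sep d a i0) (hd : 0 < d') (hdd : d' ≤ d) : Sep d' a i0 :=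
  ⟨hd, hdd.trans h.le_half, h.ne, h.le, fun i hi =>
    (mul_le_mul_of_nonneg_right hdd (norm_nonneg _)).trans (h.sep i hi)⟩

theorem exists_unif_fam (p r : ℕ) {d0 : ℝ} (hd0 : 0 < d0) : ∃ D0 B : ℝ, 0 ≤ D0 ∧ 0 ≤ B ∧
    ∀ d : ℝ, d0 / 2 ≤ d → d ≤ d0 →
    ∀ {K : Type v} [Field K] (σ : K →+* ℂ) (ζ : K) (α : Fin (r + 1) → K)
      (i0 : Fin (r + 1)), IsPrimitiveRoot ζ (p + 1) → Sep d (fun i => σ (α i)) i0 →
      |Real.log ‖σ (α i0)‖| ≤ Dd (fun i => σ (α i)) i0 → D0 ≤ Dd (fun i => σ (α i)) i0 →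
      ∀ j0 : Fin p, ∃ Γ : Torus (Opn p ζ α) 1,
        (∀ θ x, Γ.e θ (cst0 p ζ α x) = σ x) ∧
        (∀ θ, Γ.e θ (toLoc (fX p ζ α) (fX p ζ α)) =
          σ (α i0) + circ (Rr d (fun i => σ (α i)) i0) (θ 0)) ∧
        ∀ q : Fin (r + 1) × Fin p, |Γ.reg (symb (sym p ζ α q)) -
          2 * Real.pi * (wt j0 q.2 *
            (if q.1 = i0 then -Dd (fun i => σ (α i)) i0 else 0))| ≤ B := by
  classical
  choose L B h using fun (ω : {ω : ℂ // IsPrimitiveRoot ω (p + 1)}) (j0 : Fin p) =>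
    exists_loop_fam.{v} p r ω.1 ω.2 hd0 j0
  have hfin : Finite {ω : ℂ // IsPrimitiveRoot ω (p + 1)} := by
    have : {ω : ℂ | IsPrimitiveRoot ω (p + 1)} ⊆ (primitiveRoots (p + 1) ℂ : Set ℂ) := by
      intro ω hω
      exact (mem_primitiveRoots (Nat.succ_pos p)).2 hω
    exact ((primitiveRoots (p + 1) ℂ).finite_toSet.subset this).to_subtype
  have := Fintype.ofFinite {ω : ℂ // IsPrimitiveRoot ω (p + 1)}
  refine ⟨∑ ω, ∑ j, |L ω j|, ∑ ω, ∑ j, |B ω j|,
    Finset.sum_nonneg fun _ _ => Finset.sum_nonneg fun _ _ => abs_nonneg _,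
    Finset.sum_nonneg fun _ _ => Finset.sum_nonneg fun _ _ => abs_nonneg _, ?_⟩
  intro d hda hdb K _ σ ζ α i0 hζ hS hm hD j0
  have hω : IsPrimitiveRoot (σ ζ) (p + 1) := hζ.map_of_injective σ.injective
  have key : ∀ f : {ω : ℂ // IsPrimitiveRoot ω (p + 1)} → Fin p → ℝ,
      f ⟨σ ζ, hω⟩ j0 ≤ ∑ ω, ∑ j, |f ω j| := by
    intro f
    have h1 : |f ⟨σ ζ, hω⟩ j0| ≤ ∑ j, |f ⟨σ ζ, hω⟩ j| :=
      Finset.single_le_sum (f := fun j => |f ⟨σ ζ, hω⟩ j|) (fun j _ => abs_nonneg _)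
        (Finset.mem_univ j0)
    have h2 : ∑ j, |f ⟨σ ζ, hω⟩ j| ≤ ∑ ω, ∑ j, |f ω j| :=
      Finset.single_le_sum (f := fun ω => ∑ j, |f ω j|)
        (fun ω _ => Finset.sum_nonneg fun j _ => abs_nonneg _) (Finset.mem_univ _)
    exact (le_abs_self _).trans (h1.trans h2)
  obtain ⟨Γ, hΓ1, hΓX, hΓ2⟩ := h ⟨σ ζ, hω⟩ j0 d hda hdb σ ζ α i0 rfl hS hm ((key L).trans hD)
  exact ⟨Γ, hΓ1, hΓX, fun q => (hΓ2 q).trans (key B)⟩

/-- The determinant does not vanish if every root is the greatest one, well separated from the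
other ones, at some place. -/
theorem exists_det_fam (p r : ℕ) {d0 : ℝ} (hd0 : 0 < d0) : ∃ D1 : ℝ, 0 < D1 ∧
    ∀ dd : Fin (r + 1) × Fin p → ℝ, (∀ t, d0 / 2 ≤ dd t) → (∀ t, dd t ≤ d0) →
    ∀ {K : Type v} [Field K] (ζ : K) (α : Fin (r + 1) → K) (pl : Fin (r + 1) → (K →+* ℂ)),
      IsPrimitiveRoot ζ (p + 1) →
      (∀ t : Fin (r + 1) × Fin p, Sep (dd t) (fun k => pl t.1 (α k)) t.1) →
      (∀ i, |Real.log ‖pl i (α i)‖| ≤ Dd (fun k => pl i (α k)) i) →
      (∀ i, D1 ≤ Dd (fun k => pl i (α k)) i) →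
      ∃ Γ : Fin (r + 1) × Fin p → Torus (Opn p ζ α) 1,
        (∀ t θ x, (Γ t).e θ (cst0 p ζ α x) = pl t.1 x) ∧
        (∀ t θ, (Γ t).e θ (toLoc (fX p ζ α) (fX p ζ α)) =
          pl t.1 (α t.1) + circ (Rr (dd t) (fun i => pl t.1 (α i)) t.1) (θ 0)) ∧
        (Matrix.of fun t q => (Γ t).reg (symb (sym p ζ α q))).det ≠ 0 := by
  classical
  obtain ⟨L0, B0, hL0, hB0, h⟩ := exists_unif_fam.{v} p r hd0
  set n : ℕ := Fintype.card (Fin (r + 1) × Fin p) with hn
  set S : ℝ := n + n.factorial * (2 : ℝ) ^ n with hS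
  have hS0 : 0 < S := by
    have : 0 < (n.factorial : ℝ) * 2 ^ n := by
      have := Nat.factorial_pos n
      positivity
    have h2 : 0 ≤ (n : ℝ) := Nat.cast_nonneg n
    rw [hS]
    linarith
  set δ : ℝ := 1 / (S + 1) with hδdef
  have hδ : 0 < δ := by rw [hδdef]; positivity
  have hδ1 : δ ≤ 1 := by
    rw [hδdef, div_le_one (by positivity)]
    linarith
  have hsmall : (n : ℝ) * δ + (n.factorial * (2 : ℝ) ^ n) * δ < 1 := by
    rw [← add_mul, ← hS, hδdef, mul_one_div, div_lt_one (by positivity)]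
    linarith
  have hBδ : 0 ≤ B0 / δ := by positivity
  refine ⟨L0 + B0 / δ + 1, by linarith, ?_⟩
  intro dd hda hdb K _ ζ α pl hζ hSep hm hD
  have hpi := Real.pi_gt_three
  choose Γ hΓ1 hΓX hΓ2 using fun t : Fin (r + 1) × Fin p =>
    h (dd t) (hda t) (hdb t) (pl t.1) ζ α t.1 hζ (hSep t) (hm t.1) (by linarith [hD t.1]) t.2
  refine ⟨Γ, fun t => hΓ1 t, fun t => hΓX t, ?_⟩
  set E : Fin (r + 1) × Fin p → ℝ := fun t => 2 * Real.pi * Dd (fun k => pl t.1 (α k)) t.1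
    with hE
  have hEΛ : ∀ t, L0 + B0 / δ + 1 ≤ E t := by
    intro t
    have h1 := hD t.1
    simp only [hE]
    nlinarith
  have hEp : ∀ t, 0 < E t := fun t => by linarith [hEΛ t]
  have hEB : ∀ t, B0 ≤ δ * E t := by
    intro t
    have : B0 / δ ≤ E t := by linarith [hEΛ t]
    rw [div_le_iff₀ hδ] at this
    linarith
  have hneg : (Matrix.of fun t q => -(Γ t).reg (symb (sym p ζ α q))).det ≠ 0 := by
    refine det_ne_zero_of_near (fun q => p - (q.2 : ℕ)) (le_refl 2) hδ hδ1 hsmall _ E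
      hEp ?_ ?_ ?_
    · intro t
      have h1 := hΓ2 t t
      rw [wt_self, one_mul, if_pos rfl] at h1
      show |-(Γ t).reg (symb (sym p ζ α t)) - E t| ≤ δ * E t
      have e : -(Γ t).reg (symb (sym p ζ α t)) - E t =
          -((Γ t).reg (symb (sym p ζ α t)) -
            2 * Real.pi * -Dd (fun k => pl t.1 (α k)) t.1) := by
        simp only [hE]
        ring
      rw [e, abs_neg]
      exact h1.trans (hEB t)
    · intro t q hne hh
      have h0 : wt t.2 q.2 * (if q.1 = t.1 then -Dd (fun k => pl t.1 (α k)) t.1 else 0) = 0 := by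
        by_cases h1 : q.1 = t.1
        · have hw : wt t.2 q.2 = 0 := by
            by_contra hw
            rcases wt_ne hw with h3 | h3
            · exact hne (Prod.ext h1 h3)
            · have h4 := t.2.isLt
              have hh' : p - (q.2 : ℕ) ≤ p - (t.2 : ℕ) := hh
              omega
          rw [hw, zero_mul]
        · rw [if_neg h1, mul_zero]
      have h1 := hΓ2 t q
      rw [h0, mul_zero, sub_zero] at h1
      show |-(Γ t).reg (symb (sym p ζ α q))| ≤ δ * E t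
      rw [abs_neg]
      exact h1.trans (hEB t)
    · intro t q _
      have h1 := hΓ2 t q
      have h4 : |2 * Real.pi * (wt t.2 q.2 *
          (if q.1 = t.1 then -Dd (fun k => pl t.1 (α k)) t.1 else 0))| ≤ E t := by
        rw [abs_mul, abs_of_pos (by positivity : (0 : ℝ) < 2 * Real.pi), abs_mul]
        have h5 : |(if q.1 = t.1 then -Dd (fun k => pl t.1 (α k)) t.1 else 0)| ≤
            Dd (fun k => pl t.1 (α k)) t.1 := by
          have h6 := (hSep t).Dd_nonneg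
          split_ifs
          · rw [abs_neg, abs_of_nonneg h6]
          · rw [abs_zero]; exact h6
        calc 2 * Real.pi * (|wt t.2 q.2| *
              |(if q.1 = t.1 then -Dd (fun k => pl t.1 (α k)) t.1 else 0)|) ≤
            2 * Real.pi * (1 * Dd (fun k => pl t.1 (α k)) t.1) := by
              refine mul_le_mul_of_nonneg_left ?_ (by positivity)
              exact mul_le_mul (abs_wt_le _ _) h5 (abs_nonneg _) zero_le_one
          _ = E t := by simp only [hE]; ring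
      show |-(Γ t).reg (symb (sym p ζ α q))| ≤ 2 * E t
      rw [abs_neg]
      have c1 := abs_le.1 h1
      have c4 := abs_le.1 h4
      have h7 := hEB t
      have h8 : δ * E t ≤ 1 * E t := mul_le_mul_of_nonneg_right hδ1 (hEp t).le
      rw [abs_le]
      constructor <;> linarith [c1.1, c1.2, c4.1, c4.2]
  have e : (Matrix.of fun t q => -(Γ t).reg (symb (sym p ζ α q))) =
      -(Matrix.of fun t q => (Γ t).reg (symb (sym p ζ α q))) := by
    ext t q
    rfl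
  rw [e, Matrix.det_neg] at hneg
  exact right_ne_zero_of_mul hneg

/-- The loops for the roots `ω^i`, `ω^i e`: over `τ` around the first ones, over `σ` around the
second ones. -/
theorem exists_det2_fam (p q : ℕ) : ∃ c d0 : ℝ, 2 ≤ c ∧ 0 < d0 ∧
    ∀ dd : Fin (2 * q + 1 + 1) × Fin p → ℝ, (∀ t, d0 / 2 ≤ dd t) → (∀ t, dd t ≤ d0) →
    ∀ {K : Type v} [Field K] (σ τ : K →+* ℂ) (ζ ω e : K), IsPrimitiveRoot ζ (p + 1) →
      IsPrimitiveRoot ω (q + 1) → c ≤ ‖σ e‖ → ‖τ e‖ * c ≤ 1 →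
      ∃ Γ : Fin (2 * q + 1 + 1) × Fin p → Torus (Opn p ζ (al q ω e)) 1,
        (∀ t θ x, (Γ t).e θ (cst0 p ζ (al q ω e) x) = pls q σ τ t.1 x) ∧
        (∀ t θ, (Γ t).e θ (toLoc (fX p ζ (al q ω e)) (fX p ζ (al q ω e))) =
          pls q σ τ t.1 (al q ω e t.1) + circ (Rr (dd t)
            (fun i => pls q σ τ t.1 (al q ω e i)) t.1) (θ 0)) ∧
        (Matrix.of fun t s => (Γ t).reg (symb (sym p ζ (al q ω e) s))).det ≠ 0 := by
  obtain ⟨d, hd0, hd1, hd⟩ := exists_sep q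
  obtain ⟨D1, hD1, h⟩ := exists_det_fam.{v} p (2 * q + 1) hd0
  refine ⟨max 2 (Real.exp D1), d, le_max_left _ _, hd0, ?_⟩
  intro dd hda hdb K _ σ τ ζ ω e hζ hω hσ hτ
  have hσ2 : 2 ≤ ‖σ e‖ := (le_max_left _ _).trans hσ
  have hσD : Real.exp D1 ≤ ‖σ e‖ := (le_max_right _ _).trans hσ
  have he : e ≠ 0 := by
    rintro rfl
    rw [map_zero, norm_zero] at hσ2
    linarith
  have hτe : τ e ≠ 0 := (map_ne_zero τ).2 he
  have hτp : 0 < ‖τ e‖ := norm_pos_iff.2 hτe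
  have hτ2 : ‖τ e‖ ≤ 1 / 2 := by
    have := (mul_le_mul_of_nonneg_left (le_max_left 2 (Real.exp D1)) hτp.le).trans hτ
    linarith
  have hτD : ‖τ e‖ ≤ Real.exp (-D1) := by
    have := (mul_le_mul_of_nonneg_left (le_max_right 2 (Real.exp D1)) hτp.le).trans hτ
    rw [Real.exp_neg, ← one_div, le_div_iff₀ (Real.exp_pos _)]
    exact this
  have hlσ : D1 ≤ Real.log ‖σ e‖ := by
    have := Real.log_le_log (Real.exp_pos _) hσD
    rwa [Real.log_exp] at this
  have hlτ : D1 ≤ -Real.log ‖τ e‖ := by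
    have := Real.log_le_log hτp hτD
    rw [Real.log_exp] at this
    linarith
  have hmap : ∀ v : K →+* ℂ, (fun k => v (al q ω e k)) = al q (v ω) (v e) := by
    intro v
    funext k
    unfold al
    rw [map_mul, map_pow, map_pow]
  have hωm : ∀ v : K →+* ℂ, IsPrimitiveRoot (v ω) (q + 1) := fun v =>
    hω.map_of_injective v.injective
  set pl : Fin (2 * q + 1 + 1) → (K →+* ℂ) := pls q σ τ with hpl
  have hcase : ∀ i : Fin (2 * q + 1 + 1), ((i : ℕ) / (q + 1) = 0 ∧ pl i = τ) ∨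
      ((i : ℕ) / (q + 1) = 1 ∧ pl i = σ) := by
    intro i
    rcases lev i with ⟨h1, h2⟩ | ⟨h1, h2⟩
    · left
      refine ⟨h1, ?_⟩
      rw [hpl]
      unfold pls
      rw [if_pos (by omega)]
    · right
      refine ⟨h1, ?_⟩
      rw [hpl]
      unfold pls
      rw [if_neg (by omega)]
  have hS : ∀ i, Sep d (fun k => pl i (al q ω e k)) i := by
    intro i
    rw [hmap]
    rcases hcase i with ⟨h1, h2⟩ | ⟨h1, h2⟩
    · rw [h2]
      exact sep_low hd0 hd1 (hωm τ) (hd _ (hωm τ)) hτe hτ2 h1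
    · rw [h2]
      exact sep_high hd0 hd1 (hωm σ) (hd _ (hωm σ)) hσ2 h1
  have hval : ∀ i, |Real.log ‖pl i (al q ω e i)‖| ≤ Dd (fun k => pl i (al q ω e k)) i ∧
      D1 ≤ Dd (fun k => pl i (al q ω e k)) i := by
    intro i
    have hSi := hS i
    have e1 : pl i (al q ω e i) = al q (pl i ω) (pl i e) i := congrFun (hmap (pl i)) i
    rw [e1, norm_al (hωm _)]
    rw [hmap] at hSi ⊢
    rcases hcase i with ⟨h1, h2⟩ | ⟨h1, h2⟩
    · rw [h2] at hSi ⊢
      have h3 := Dd_low (hωm τ) h1 hSi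
      rw [h1, pow_zero, Real.log_one, abs_zero]
      exact ⟨by linarith, by linarith⟩
    · rw [h2] at hSi ⊢
      have h3 := Dd_high (hωm σ) h1 hSi
      rw [h1, pow_one, abs_of_nonneg (by linarith)]
      exact ⟨h3, by linarith⟩
  obtain ⟨Γ, hΓ1, hΓX, hΓ2⟩ := h dd hda hdb ζ (al q ω e) pl hζ
    (fun t => (hS t.1).mono (by linarith [hda t]) (hdb t)) (fun i => (hval i).1)
    (fun i => (hval i).2)
  exact ⟨Γ, hΓ1, hΓX, hΓ2⟩


end Pool.Agent.X232.CF.G
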