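import Pool.Agent.TH265.V.Main
set_option autoImplicit false

/-!
The loops around the roots `α i` for a family of radii, with uniform bounds.
-/

namespace Pool.Agent.X232.CF.G

open Pool.Agent.TH826.MK
open Pool.Agent.TH826.MH (Nice good_w good_comp pairing_w pairing_cons_div0 wt
  abs_wt_le wt_self wt_ne exists_branch mkT evX evX_fpol mkT_ux ux fpol)
open Pool.Agent.TH265.U (Fr FF good_FF Mv pairing_w_eq abs_pairing_nice extTorus extTorus_toLoc
  toLoc fn_div)
open Pool.Agent.TH265.V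
open MeasureTheory Set

universe v

theorem exists_loop_fam (p r : ℕ) (ω : ℂ) (hω : IsPrimitiveRoot ω (p + 1)) {d0 : ℝ}
    (hd0 : 0 < d0) (j0 : Fin p) :
    ∃ D0 B : ℝ, ∀ d : ℝ, d0 / 2 ≤ d → d ≤ d0 →
      ∀ {K : Type v} [Field K] (σ : K →+* ℂ) (ζ : K) (α : Fin (r + 1) → K)
      (i0 : Fin (r + 1)), σ ζ = ω → Sep d (fun i => σ (α i)) i0 →
      |Real.log ‖σ (α i0)‖| ≤ Dd (fun i => σ (α i)) i0 → D0 ≤ Dd (fun i => σ (α i)) i0 →
      ∃ Γ : Torus (Opn p ζ α) 1,
        (∀ θ x, Γ.e θ (cst0 p ζ α x) = σ x) ∧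
        (∀ θ, Γ.e θ (toLoc (fX p ζ α) (fX p ζ α)) =
          σ (α i0) + circ (Rr d (fun i => σ (α i)) i0) (θ 0)) ∧
        ∀ q : Fin (r + 1) × Fin p, |Γ.reg (symb (sym p ζ α q)) -
          2 * Real.pi * (wt j0 q.2 *
            (if q.1 = i0 then -Dd (fun i => σ (α i)) i0 else 0))| ≤ B := by
  set β : Fin (p + 1) → ℂ := fun j => ω ^ (j : ℕ) with hβ
  have hβi : Function.Injective β := by
    intro i j hij
    exact Fin.ext (hω.pow_inj i.isLt j.isLt hij)
  obtain ⟨G, g, δ, C, hδ, hG, hg⟩ := exists_branch β hβi j0.castSucc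
  have hC : 0 ≤ C := (abs_nonneg _).trans ((hg 0) 0 (by simpa using hδ)).2.2.1
  have hpi := Real.pi_pos
  set M0 : ℝ := |Real.log (d0 / 4)| + |Real.log (d0 / 2)| with hM0
  set κ : ℝ := M0 + 1 with hκ
  have hκ0 : 0 ≤ κ := by rw [hκ]; positivity
  set Eb : ℝ := 2 * Real.pi * C + 2 * (C * (1 + 2 * ((r + 1) * (4 * Real.pi))) *
    ((8 / d0) ^ (r + 1) * (2 + (2 * (κ + 1) + 16 * Real.pi)))) with hEb
  refine ⟨|Real.log (δ / 2 / (8 / d0) ^ (r + 1))|,
    2 * Real.pi * ((r + 1) * (|Real.log (d0 / 2)| + |Real.log d0|)) + 2 * Eb, ?_⟩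
  intro d hda hdb K _ σ ζ α i0 hζ hS hm hD
  set a : Fin (r + 1) → ℂ := fun i => σ (α i) with ha
  set A : ℂ := a i0 with hA
  set D : ℝ := Dd a i0 with hDd
  have hd := hS.pos
  have hdh := hS.le_half
  have hmp : 0 < ‖A‖ := hS.m_pos
  have hD0 : 0 ≤ D := hS.Dd_nonneg
  have hMd : |Real.log (d / 2)| ≤ M0 := by
    have h1 : Real.log (d0 / 4) ≤ Real.log (d / 2) :=
      Real.log_le_log (by positivity) (by linarith)
    have h2 : Real.log (d / 2) ≤ Real.log (d0 / 2) :=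
      Real.log_le_log (by positivity) (by linarith)
    have h3 := neg_abs_le (Real.log (d0 / 4))
    have h4 := le_abs_self (Real.log (d0 / 2))
    have h5 := abs_nonneg (Real.log (d0 / 4))
    have h6 := abs_nonneg (Real.log (d0 / 2))
    rw [abs_le]
    constructor <;> linarith
  have hMd' : -Real.log d ≤ |Real.log (d0 / 2)| + |Real.log d0| := by
    have h1 : Real.log (d0 / 2) ≤ Real.log d := Real.log_le_log (by positivity) hda
    have h3 := neg_abs_le (Real.log (d0 / 2))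
    have h6 := abs_nonneg (Real.log d0)
    linarith
  have h48 : (4 / d) ^ (r + 1) ≤ (8 / d0) ^ (r + 1) := by
    refine pow_le_pow_left₀ (by positivity) ?_ _
    rw [div_le_div_iff₀ hd hd0]
    linarith
  set l : ℂ := lm a with hl'
  have hα0 : ∀ i, α i ≠ 0 := fun i h => hS.ne i (by rw [ha]; simp [h])
  have hl : l ≠ 0 := lm_ne_zero (α := a) hS.ne
  set c : Fin (r + 1) → ℂ := ctr a i0 with hc
  set R : ℝ := Rr d a i0 with hR'
  have hR : 0 < R := hS.Rr_pos
  have hα : ∀ i, Fr R (c i) := hS.fr_ctr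
  have hF := good_FF hR hα
  set W : ℝ := (8 / d0) ^ (r + 1) * Real.exp (-D) with hW'
  have hW : ∀ θ, ‖(l * FF c R θ)⁻¹‖ ≤ W := fun θ => (hS.norm_w_le θ).trans
    (mul_le_mul_of_nonneg_right h48 (Real.exp_pos _).le)
  have h4p : 0 < (8 / d0) ^ (r + 1) := by positivity
  have hWδ : W < δ := by
    have h1 : Real.exp (-D) ≤ δ / 2 / (8 / d0) ^ (r + 1) := by
      have h2 : -D ≤ Real.log (δ / 2 / (8 / d0) ^ (r + 1)) := by
        have h3 := neg_abs_le (Real.log (δ / 2 / (8 / d0) ^ (r + 1)))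
        linarith
      refine (Real.exp_le_exp.2 h2).trans (le_of_eq ?_)
      exact Real.exp_log (by positivity)
    calc W ≤ (8 / d0) ^ (r + 1) * (δ / 2 / (8 / d0) ^ (r + 1)) := by
          rw [hW']
          gcongr
      _ = δ / 2 := by
          field_simp
      _ < δ := by linarith
  have hw : ∀ θ, ‖(l * FF c R θ)⁻¹‖ < δ := fun θ => (hW θ).trans_lt hWδ
  -- the point
  set X : (Fin 1 → ℝ) → (Fin (1 + 1) → ℂ) := fun θ =>
    Fin.cons (G (l * FF c R θ)⁻¹) (fun _ => A + circ R (θ 0)) with hX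
  have hX0 : ∀ θ, X θ 0 = G (l * FF c R θ)⁻¹ := fun θ => rfl
  have hXs : ∀ θ (k : Fin 1), X θ k.succ = A + circ R (θ 0) := fun θ k => rfl
  have hXc : ContDiff ℝ 2 X := by
    refine contDiff_pi.2 fun k => ?_
    refine Fin.cases ?_ (fun k => ?_) k
    · simp only [hX0]
      rw [contDiff_iff_contDiffAt]
      intro θ
      exact (((hG _ (hw θ)).1.contDiffAt (n := 2)).restrict_scalars ℝ).comp θ
        (good_w hF hl).smooth.contDiffAt
    · simp only [hXs]
      exact contDiff_const.add ((contDiff_circ R).comp (contDiff_apply ℝ ℝ 0))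
  have hcp : ∀ (θ : Fin 1 → ℝ) (i : Fin 1),
      circ R ((θ + Pi.single i 1 : Fin 1 → ℝ) 0) = circ R (θ 0) := by
    intro θ i
    exact congrFun (tpt_add_single (fun _ => R) θ i) 0
  have hFp : ∀ θ i, FF c R (θ + Pi.single i 1) = FF c R θ := by
    intro θ i
    unfold FF
    simp only [hcp]
  have hXp : ∀ θ i, X (θ + Pi.single i 1) = X θ := by
    intro θ i
    funext k
    refine Fin.cases ?_ (fun k => ?_) k
    · rw [hX0, hX0, hFp]
    · rw [hXs, hXs, hcp]
  have hca : ∀ (s : ℝ) (i : Fin (r + 1)), A + circ R s - a i = circ R s - c i := by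
    intro s i
    rw [hc]
    unfold ctr
    ring
  have hXx : ∀ θ, σ (lm α) * ∏ k, ∏ i, (X θ k - σ (rts p ζ α k i)) = 1 := by
    intro θ
    rw [Fin.prod_univ_two, map_lm]
    have h1 : ∏ i, (X θ 0 - σ (rts p ζ α 0 i)) = (l * FF c R θ)⁻¹ := by
      rw [← (hG _ (hw θ)).2.1]
      refine Finset.prod_congr rfl fun i _ => ?_
      show G (l * FF c R θ)⁻¹ - σ (ζ ^ (i : ℕ)) = _
      rw [map_pow, hζ]
    have h2 : ∏ i, (X θ 1 - σ (rts p ζ α 1 i)) = FF c R θ := by
      unfold FF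
      exact Finset.prod_congr rfl fun i _ => hca _ i
    rw [h1, h2]
    have h3 := hF.ne_zero θ
    show l * _ = 1
    field_simp
  set Γ0 : Torus (Crv p ζ α) 1 := mkT X hXc hXp hXx with hΓ0
  have hΓX : ∀ θ, Γ0.e θ (fX p ζ α) = A + circ R (θ 0) := by
    intro θ
    show evX (hXx θ) (fpol _ _ (MvPolynomial.X 1)) = _
    rw [evX_fpol]
    simp only [MvPolynomial.coe_eval₂Hom, MvPolynomial.eval₂_X]
    rfl
  have hb0 : Fr R (-A) := hS.fr_neg
  have hΓX0 : ∀ θ, Γ0.e θ (fX p ζ α) ≠ 0 := by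
    intro θ
    rw [hΓX]
    have h1 := hb0.half_le hR (θ 0)
    intro h2
    rw [sub_neg_eq_add, add_comm, h2, norm_zero] at h1
    linarith
  refine ⟨extTorus (fX p ζ α) Γ0 hΓX0, fun θ x => ?_, fun θ => ?_, fun q => ?_⟩
  · show (extTorus (fX p ζ α) Γ0 hΓX0).e θ (toLoc (fX p ζ α)
      (fpol _ _ (MvPolynomial.C x))) = σ x
    rw [extTorus_toLoc]
    show evX (hXx θ) (fpol _ _ (MvPolynomial.C x)) = σ x
    rw [evX_fpol]
    simp
  · rw [extTorus_toLoc]
    exact hΓX θ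
  rw [Torus.reg_symb]
  unfold Torus.pair
  set Γ := extTorus (fX p ζ α) Γ0 hΓX0 with hΓ
  have hfY : ∀ j, Γ.fn (uY p ζ α j : Opn p ζ α) = fun θ => G (l * FF c R θ)⁻¹ - β j := by
    intro j
    funext θ
    have h1 : Γ.fn (uY p ζ α j : Opn p ζ α) θ =
        Γ0.fn (ux (lm α) (rts p ζ α) 0 j : Crv p ζ α) θ :=
      extTorus_toLoc (fX p ζ α) Γ0 hΓX0 _ θ
    rw [h1, hΓ0, mkT_ux X hXc hXp hXx 0 j]
    show X θ 0 - σ (ζ ^ (j : ℕ)) = _
    rw [map_pow, hζ, hX0]
  have hfE : ∀ j, Γ.fn (uE p ζ α j : Opn p ζ α) = fun θ => circ R (θ 0) - c j := by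
    intro j
    funext θ
    have h1 : Γ.fn (uE p ζ α j : Opn p ζ α) θ =
        Γ0.fn (ux (lm α) (rts p ζ α) 1 j : Crv p ζ α) θ :=
      extTorus_toLoc (fX p ζ α) Γ0 hΓX0 _ θ
    rw [h1, hΓ0, mkT_ux X hXc hXp hXx 1 j]
    exact hca _ j
  have hfX : Γ.fn (uX p ζ α : Opn p ζ α) = fun θ => circ R (θ 0) - -A := by
    funext θ
    have h1 : Γ.fn (uX p ζ α : Opn p ζ α) θ = Γ0.e θ (fX p ζ α) :=
      extTorus_toLoc (fX p ζ α) Γ0 hΓX0 _ θ
    rw [h1, hΓX, sub_neg_eq_add, add_comm]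
  set V : Fin 1 → ℝ → ℂ := fun _ s => (circ R s - c q.1) / (circ R s - -A) with hV'
  have e1 : (fun k => Γ.fn (sym p ζ α q k : Opn p ζ α)) =
      (Fin.cons (fun θ => (G (l * FF c R θ)⁻¹ - β q.2.castSucc) /
        (G (l * FF c R θ)⁻¹ - β q.2.succ)) (vf V) : Fin (1 + 1) → (Fin 1 → ℝ) → ℂ) := by
    funext k
    refine Fin.cases ?_ (fun k => ?_) k
    · funext θ
      rw [Fin.cons_zero]
      have h1 : sym p ζ α q 0 = uY p ζ α q.2.castSucc / uY p ζ α q.2.succ := rfl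
      rw [h1, fn_div, hfY, hfY]
    · funext θ
      rw [Fin.cons_succ]
      have hk : k = 0 := Subsingleton.elim _ _
      subst hk
      have h1 : sym p ζ α q (Fin.succ 0) = uE p ζ α q.1 / uX p ζ α := rfl
      rw [h1, fn_div, hfE, hfX]
      rfl
  rw [e1]
  have hb : Fr R (c q.1) := hα q.1
  have hV : ∀ k : Fin 1, One (V k) ((fun _ : Fin 1 => wd R (c q.1) - wd R (-A)) k) :=
    fun _ => (hb.one hR).div (hb0.one hR)
  have hv : ∀ k, Good (vf V k) := fun k => (hV k).good k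
  have hgood : ∀ j, Good fun θ => G (l * FF c R θ)⁻¹ - β j := by
    intro j
    have h1 : (fun θ => G (l * FF c R θ)⁻¹ - β j) = fun θ =>
        (if j = j0.castSucc then (l * FF c R θ)⁻¹ else 1) * g j (l * FF c R θ)⁻¹ := by
      funext θ
      exact (hG _ (hw θ)).2.2 j
    rw [h1]
    refine Good.mul ?_ (good_comp hF hl hw (hg j))
    by_cases h : j = j0.castSucc
    · simp only [h, if_true]
      exact good_w hF hl
    · simp only [h, if_false]
      exact good_const one_ne_zero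
  have hpair : ∀ j, pairing (Fin.cons (fun θ => G (l * FF c R θ)⁻¹ - β j) (vf V)) =
      (if j = j0.castSucc then 1 else 0) *
        (2 * Real.pi * Mv c l R (c q.1) (-A)) +
      pairing (Fin.cons (fun θ => g j (l * FF c R θ)⁻¹) (vf V)) := by
    intro j
    have h1 : (fun θ => G (l * FF c R θ)⁻¹ - β j) = fun θ =>
        (if j = j0.castSucc then (l * FF c R θ)⁻¹ else 1) * g j (l * FF c R θ)⁻¹ := by
      funext θ
      exact (hG _ (hw θ)).2.2 j
    rw [h1]
    by_cases h : j = j0.castSucc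
    · simp only [h, if_true]
      rw [pairing_cons_mul (good_w hF hl) (good_comp hF hl hw (hg _)) hv,
        pairing_w_eq hR hα hl hb hb0]
      ring
    · simp only [h, if_false, one_mul]
      ring
  rw [pairing_cons_div0 (hgood _) (hgood _) hV, hpair, hpair]
  have hr0 : (0 : ℝ) ≤ r := Nat.cast_nonneg _
  have hlogR : Real.log R = Real.log (d / 2) + Real.log ‖A‖ := by
    rw [← Real.log_mul (by positivity) hmp.ne']
    congr 1
    rw [hR']
    unfold Rr
    ring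
  have hm1 := abs_le.1 hm
  have hl2 := abs_le.1 (le_refl |Real.log (d / 2)|)
  have hRe : Real.exp (Real.log R) = R := Real.exp_log hR
  have hb1 : ‖c q.1‖ ≤ 2 * ‖A‖ := by
    have h1 := norm_sub_le (a q.1) (a i0)
    have h2 := hS.le q.1
    rw [hc]
    unfold ctr
    linarith
  have h2A : 2 * ‖A‖ ≤ Real.exp (D + κ) := by
    have hl3 : Real.log 2 ≤ 1 := by linarith [Real.log_two_lt_d9]
    rw [← Real.exp_log (by positivity : (0 : ℝ) < 2 * ‖A‖), Real.exp_le_exp,
      Real.log_mul two_ne_zero hmp.ne', hκ]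
    have := abs_nonneg (Real.log (d / 2))
    linarith [hm1.2]
  have hE : ∀ j, |pairing (Fin.cons (fun θ => g j (l * FF c R θ)⁻¹) (vf V))| ≤ Eb := by
    intro j
    have h1 := abs_pairing_nice (M := D + κ) hR hα hl hb hb0 (hg j) hC hw hW
      (by
        rw [← hRe, Real.exp_le_exp, hlogR, hκ]
        linarith [hm1.1, hl2.1])
      (by
        rw [← hRe, Real.exp_le_exp, hlogR, hκ]
        linarith [hm1.2, hl2.2])
      (hb1.trans h2A)
      (by
        rw [norm_neg]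
        linarith) (by positivity)
    refine h1.trans ?_
    have h2 : |Real.log ‖g j 0‖| ≤ C := ((hg j) 0 (by simpa using hδ)).2.2.1
    have h3 := exp_bound hD0 (by positivity : 0 ≤ 2 * (κ + 1) + 16 * Real.pi)
    have h4 : C * W * (1 + 2 * ((r + 1) * (4 * Real.pi))) * (2 * (D + κ + 1) + 16 * Real.pi) =
        C * (1 + 2 * ((r + 1) * (4 * Real.pi))) * ((8 / d0) ^ (r + 1) *
          (Real.exp (-D) * (2 * D + (2 * (κ + 1) + 16 * Real.pi)))) := by
      rw [hW']
      ring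
    rw [h4, hEb]
    gcongr
  have b1 := hE q.2.castSucc
  have b2 := hE q.2.succ
  have b3 := hS.abs_Mv q.1
  set p1 := pairing (Fin.cons (fun θ => g q.2.castSucc (l * FF c R θ)⁻¹) (vf V)) with hp1
  set p2 := pairing (Fin.cons (fun θ => g q.2.succ (l * FF c R θ)⁻¹) (vf V)) with hp2
  set m1 := Mv c l R (c q.1) (-A) with hm1'
  set m2 : ℝ := (if q.1 = i0 then -D else 0) with hm2
  have e2 : (if q.2.castSucc = j0.castSucc then (1 : ℝ) else 0) * (2 * Real.pi * m1) + p1 -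
      ((if q.2.succ = j0.castSucc then 1 else 0) * (2 * Real.pi * m1) + p2) -
      2 * Real.pi * (wt j0 q.2 * m2) = 2 * Real.pi * (wt j0 q.2 * (m1 - m2)) + p1 - p2 := by
    unfold wt
    ring
  rw [e2]
  have b4 : |2 * Real.pi * (wt j0 q.2 * (m1 - m2))| ≤
      2 * Real.pi * ((r + 1) * (|Real.log (d0 / 2)| + |Real.log d0|)) := by
    rw [abs_mul, abs_of_pos (by positivity : (0 : ℝ) < 2 * Real.pi), abs_mul]
    refine mul_le_mul_of_nonneg_left ?_ (by positivity)
    calc |wt j0 q.2| * |m1 - m2| ≤ 1 * |m1 - m2| :=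
          mul_le_mul_of_nonneg_right (abs_wt_le _ _) (abs_nonneg _)
      _ = |m1 - m2| := one_mul _
      _ ≤ (r + 1) * -Real.log d := b3
      _ ≤ _ := by
          refine mul_le_mul_of_nonneg_left hMd' (by positivity)
  have c1 := abs_le.1 b1
  have c2 := abs_le.1 b2
  have c4 := abs_le.1 b4
  rw [abs_le]
  constructor <;> linarith [c1.1, c1.2, c2.1, c2.2, c4.1, c4.2]


end Pool.Agent.X232.CF.G
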