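import Pool.Agent.X232.CF.G.Red
import Pool.Agent.X232.CF.Fin
import Pool.Agent.TH690.UE.Quad
set_option autoImplicit false

/-!
The regulator isomorphism for the curves `(1 - y²) (1 - x²) (1 - (x/e)²) = 1` of genus two.
-/

namespace Pool.Agent.X232.CF.G

open Polynomial

open Pool.Agent.TH826.MK (Torus symb KQ Unramified)

open Pool.Agent.TH826.MH (eqn)

open Pool.Agent.TH265.U (Loc toLoc)

open Pool.Agent.TH265.V

open Pool.Agent.X232.CU (Av)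

universe u v

section hyp

variable {K : Type*} [Field K] [CharZero K]

theorem prim_neg_one : IsPrimitiveRoot (-1 : K) (1 + 1) := IsPrimitiveRoot.neg_one 0 (by decide)

omit [CharZero K] in
theorem DD_al (e : K) : DD (al 1 (-1) e) = (X ^ 2 - 1) * (X ^ 2 - C (e ^ 2)) := by
  have h : DD (al 1 (-1) e) = ∏ i : Fin 4, (X - C (al 1 (-1) e i)) := rfl
  have a0 : al 1 (-1) e (0 : Fin 4) = 1 := by
    show (-1 : K) ^ 0 * e ^ (0 / 2) = 1
    norm_num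
  have a1 : al 1 (-1) e (1 : Fin 4) = -1 := by
    show (-1 : K) ^ 1 * e ^ (1 / 2) = -1
    norm_num
  have a2 : al 1 (-1) e (2 : Fin 4) = e := by
    show (-1 : K) ^ 2 * e ^ (2 / 2) = e
    norm_num
  have a3 : al 1 (-1) e (3 : Fin 4) = -e := by
    show (-1 : K) ^ 3 * e ^ (3 / 2) = -e
    norm_num
  rw [h, Fin.prod_univ_four, a0, a1, a2, a3]
  simp only [C_1, C_neg, C_pow]
  ring

theorem hyp_al {e : K} (he : e ≠ 0) (σ : K →+* ℂ) (h1 : 1 < ‖σ e‖)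
    (hns : ∀ a : K, a ^ 2 ≠ -(1 + e ^ 2)) :
    Hyp (al 1 (-1) e) (X ^ 2 - C (1 + e ^ 2)) := by
  have h0 : (DD (al 1 (-1) e)).eval 0 = e ^ 2 := by
    rw [DD_al]
    simp
  refine ⟨al_injective prim_neg_one σ h1, al_ne_zero prim_neg_one he, by norm_num, two_ne_zero,
    ?_, fun a ha => ?_⟩
  · rw [h0, DD_al]
    simp only [C_add, C_1, C_pow]
    ring
  · rw [h0] at ha
    apply hns (a / e)
    rw [div_pow, ha]
    simp only [eval_sub, eval_pow, eval_X, eval_C]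
    field_simp
    ring

theorem unr_G {e : K} (he : e ≠ 0) (ie : IsIntegral ℤ e) (ie' : IsIntegral ℤ e⁻¹)
    (L : Type*) [Field L] [Algebra (Opn 1 (-1) (al 1 (-1) e)) L] (s : Fin (2 * 1 + 1 + 1) × Fin 1) :
    KQ.map 2 (algebraMap (Opn 1 (-1) (al 1 (-1) e)) L) (clG (al 1 (-1) e) s) ∈
      Unramified L 2 := by
  have i1 : IsIntegral ℤ (-1 : K) := isIntegral_one.neg
  refine sym_mem_unramified _ prim_neg_one (fun i => (i1.pow _).mul (ie.pow _)) (fun i => ?_)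
    (al_ne_zero prim_neg_one he) s
  rw [mul_inv, ← inv_pow, ← inv_pow, inv_neg, inv_one]
  exact (i1.pow _).mul (ie'.pow _)

end hyp

section main

variable {K : Type*} [Field K] [CharZero K]

theorem dom_G {e : K} (he : e ≠ 0) (σ : K →+* ℂ) (h1 : 1 < ‖σ e‖)
    (hns : ∀ a : K, a ^ 2 ≠ -(1 + e ^ 2)) : IsDomain (Opn 1 (-1) (al 1 (-1) e)) :=
  isDomain_Opn (hyp_al he σ h1 hns).hl (hyp_al he σ h1 hns).ha

/-- the data of the curve -/
noncomputable def dataG {e : K} (he : e ≠ 0) (ie : IsIntegral ℤ e) (ie' : IsIntegral ℤ e⁻¹)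
    (σ : K →+* ℂ) (h1 : 1 < ‖σ e‖) (hns : ∀ a : K, a ^ 2 ≠ -(1 + e ^ 2))
    (L : Type*) [Field L] [Algebra (Opn 1 (-1) (al 1 (-1) e)) L] {T : Type*} [Fintype T]
    (ε : T ≃ Fin (2 * 1 + 1 + 1) × Fin 1) :
    Data (cst0 1 (-1) (al 1 (-1) e)) L (Fin (2 * 1 + 1 + 1) ⊕ Fin 2)
      (Option (Option (Fin (2 * 1 + 1 + 1)))) T where
  pl := plA (hyp_al he σ h1 hns)
  pl_cst := cst_G (hyp_al he σ h1 hns)
  inj := inj_G (hyp_al he σ h1 hns)
  unif := unif_G (hyp_al he σ h1 hns)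
  gens := gensG (al 1 (-1) e)
  units := units_G (hyp_al he σ h1 hns)
  rank := rank_G (hyp_al he σ h1 hns)
  cl t := clG (al 1 (-1) e) (ε t)
  unr t := unr_G he ie ie' L (ε t)
  red i j := by
    have h := red_G (hyp_al he σ h1 hns).hl (hyp_al he σ h1 hns).ne (hyp_al he σ h1 hns).inj
      (hyp_al he σ h1 hns).two i j
    have e' : Set.range (fun t => clG (al 1 (-1) e) (ε t)) = Set.range (clG (al 1 (-1) e)) :=
      ε.surjective.range_comp (clG (al 1 (-1) e))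
    rw [e']
    exact h

/-- The loops over the embedding `s`. -/
def OverG {e : K} (s : K →+* ℂ) (Γ : Torus (Opn 1 (-1) (al 1 (-1) e)) 1) : Prop :=
  ∀ θ (x : K), Γ.e θ (cst0 1 (-1) (al 1 (-1) e) x) = s x

end main

theorem iso_G : ∃ c : ℝ, 2 ≤ c ∧ ∀ {K : Type u} [Field K] [CharZero K] (σ τ : K →+* ℂ) (e : K),
    IsIntegral ℤ e → IsIntegral ℤ e⁻¹ → c ≤ ‖σ e‖ → ‖τ e‖ * c ≤ 1 →
    (∀ a : K, a ^ 2 ≠ -(1 + e ^ 2)) → ∀ {T : Type} [Fintype T] [DecidableEq T]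
    (ε : T ≃ Fin (2 * 1 + 1 + 1) × Fin 1) (L : Type v) [Field L]
    [Algebra (Opn 1 (-1) (al 1 (-1) e)) L] [IsFractionRing (Opn 1 (-1) (al 1 (-1) e)) L],
    IsoModConstants (cst0 1 (-1) (al 1 (-1) e)) L
      (fun (t : T) (Γ : Torus (Opn 1 (-1) (al 1 (-1) e)) 1) => OverG (pls 1 σ τ (ε t).1) Γ) := by
  obtain ⟨c, hc, H⟩ := exists_avoid_fam.{u} 1 1
  refine ⟨c, hc, ?_⟩
  intro K _ _ σ τ e ie ie' hσ hτ hns T _ _ ε L _ _ _
  have he : e ≠ 0 := by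
    rintro rfl
    rw [map_zero, norm_zero] at hσ
    linarith
  have h1 : 1 < ‖σ e‖ := by linarith
  have hyp := hyp_al he σ h1 hns
  have hdom : IsDomain (Opn 1 (-1) (al 1 (-1) e)) := dom_G he σ h1 hns
  refine iso_mod_constants
    (fun (t : T) (Γ : Torus (Opn 1 (-1) (al 1 (-1) e)) 1) => OverG (pls 1 σ τ (ε t).1) Γ)
    (fun t Γ hΓ x => ⟨pls 1 σ τ (ε t).1 x, fun θ => hΓ θ x⟩)
    (dataG he ie ie' σ h1 hns L ε) fun f hf => ?_
  obtain ⟨Γ, g1, g2, g3⟩ := H σ τ (-1) (-1) e prim_neg_one prim_neg_one hσ hτ hyp.hl hyp.ha f hf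
  refine ⟨fun t => Γ (ε t), fun t => g1 (ε t), fun t => g2 (ε t), ?_⟩
  have h3 : (Matrix.of fun t s => (Γ (ε t)).reg ((dataG he ie ie' σ h1 hns L ε).cl s)) =
      (Matrix.of fun t s => (Γ t).reg (symb (sym 1 (-1) (al 1 (-1) e) s))).submatrix ε ε := rfl
  rw [h3, Matrix.det_submatrix_equiv_self]
  exact g3

/-- the indices of the loops: two over each of the two embeddings -/
noncomputable def eps : Fin 2 × Fin 2 ≃ Fin (2 * 1 + 1 + 1) × Fin 1 :=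
  Equiv.ofBijective (fun t => ((![![2, 3], ![0, 1]] t.1 t.2 : Fin 4), (0 : Fin 1))) (by decide)

theorem pls_eps {K : Type*} [Field K] (s : Fin 2 → (K →+* ℂ)) (t : Fin 2 × Fin 2) :
    pls 1 (s 0) (s 1) (eps t).1 = s t.1 := by
  obtain ⟨l, j⟩ := t
  have h : (eps (l, j)).1 = (![![2, 3], ![0, 1]] l j : Fin 4) := rfl
  rw [h]
  unfold pls
  fin_cases l <;> fin_cases j
  · exact if_neg (by decide)
  · exact if_neg (by decide)
  · exact if_pos (by decide)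
  · exact if_pos (by decide)

theorem iso_G2 : ∃ c : ℝ, 2 ≤ c ∧ ∀ {K : Type u} [Field K] [CharZero K]
    (s : Fin 2 → (K →+* ℂ)) (e : K),
    IsIntegral ℤ e → IsIntegral ℤ e⁻¹ → c ≤ ‖s 0 e‖ → ‖s 1 e‖ * c ≤ 1 →
    (∀ a : K, a ^ 2 ≠ -(1 + e ^ 2)) → ∀ (L : Type v) [Field L]
    [Algebra (Opn 1 (-1) (al 1 (-1) e)) L] [IsFractionRing (Opn 1 (-1) (al 1 (-1) e)) L],
    IsoModConstants (cst0 1 (-1) (al 1 (-1) e)) L
      (fun (t : Fin 2 × Fin 2) (Γ : Torus (Opn 1 (-1) (al 1 (-1) e)) 1) => OverG (s t.1) Γ) ∧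
    IsoModConstants (cst0 1 (-1) (al 1 (-1) e)) L
      (fun (t : Fin 2 × Fin 2) (Γ : Torus (Opn 1 (-1) (al 1 (-1) e)) 1) =>
        OverG (s (Equiv.swap 0 1 t.1)) Γ) := by
  obtain ⟨c, hc, H⟩ := iso_G.{u, v}
  refine ⟨c, hc, ?_⟩
  intro K _ _ s e ie ie' hσ hτ hns L _ _ _
  constructor
  · have h := H (s 0) (s 1) e ie ie' hσ hτ hns eps L
    simp only [pls_eps] at h
    exact h
  · have h := H (s 0) (s 1) e ie ie' hσ hτ hns
      (((Equiv.swap (0 : Fin 2) 1).prodCongr (Equiv.refl (Fin 2))).trans eps) L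
    simp only [Equiv.trans_apply, pls_eps] at h
    exact h

end Pool.Agent.X232.CF.G
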