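import Pool.Agent.X232.CF.G.Unit
import Pool.Agent.X232.CF.Quo
set_option autoImplicit false

/-!
The relations between the symbols on the curve `(1 - y²) ∏ (1 - x/α_i) = 1`.
-/

namespace Pool.Agent.X232.CF.G

open Polynomial

open Pool.Agent.TH826.MK (KQ symb)

open Pool.Agent.TH826.MH (CRing fpol fx ux eqn coe_ux prod_eq_one)

open Pool.Agent.TH265.U (rr Loc toLoc liftLoc liftLoc_toLoc isUnit_toLoc)

open Pool.Agent.TH265.V

open Pool.Agent.X232.CU (sy sy_mul_left sy_mul_right sy_prod_left sy_prod_right sy_zpow_left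
  sy_zpow_right sy_one_left sy_one_right sy_div_left sy_div_right sy_inv_left sy_inv_right
  map_sy sy_self symb_eq_sy span_symb sy_steinberg)

variable {K : Type*} [Field K] {r : ℕ} {α : Fin (r + 1) → K}

/-- the symbol modulo the disregarded ones -/
noncomputable def BB (α : Fin (r + 1) → K) (u v : (Opn 1 (-1) α)ˣ) :
    KQ (Opn 1 (-1) α) 2 ⧸ MM (cst0 1 (-1) α) := pi2 (cst0 1 (-1) α) (sy u v)

theorem BB_swap (u v : (Opn 1 (-1) α)ˣ) : BB α u v = -BB α v u := (alt_pi2 _).swap u v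

theorem BB_self (u : (Opn 1 (-1) α)ˣ) : BB α u u = 0 := alt_pi2 _ u

theorem toLoc_ux (k : Fin 2) (i : Fin (rr 1 r k + 1)) :
    toLoc (fX 1 (-1) α) (ux (lm α) (rts 1 (-1) α) k i : Crv 1 (-1) α) =
      toLoc (fX 1 (-1) α) (fpol (lm α) (rts 1 (-1) α) (MvPolynomial.X k)) -
        cst0 1 (-1) α (rts 1 (-1) α k i) := by
  rw [coe_ux]
  unfold fx
  rw [map_sub, map_sub]
  rfl

theorem uE_eq (i : Fin (r + 1)) : (uE 1 (-1) α i : Opn 1 (-1) α) =
    (uX 1 (-1) α : Opn 1 (-1) α) - cst0 1 (-1) α (α i) :=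
  toLoc_ux 1 i

theorem uY_eq (j : Fin 2) : (uY 1 (-1) α j : Opn 1 (-1) α) =
    toLoc (fX 1 (-1) α) (yy α) - cst0 1 (-1) α ((-1) ^ (j : ℕ)) :=
  toLoc_ux 0 j

theorem rel_G (hl : lm α ≠ 0) : cu (cst0 1 (-1) α) (Units.mk0 _ hl) *
    ((∏ j : Fin 2, uY 1 (-1) α j) * ∏ i, uE 1 (-1) α i) = 1 := by
  have h1 := congrArg (Units.map (toLoc (fX 1 (-1) α) : Crv 1 (-1) α →* Opn 1 (-1) α))
    (CU.rel (a := rts 1 (-1) α) hl)
  rw [map_mul, map_mul, map_prod, map_prod, map_one] at h1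
  exact h1

theorem b1 (hne : ∀ i, α i ≠ 0) (i : Fin (r + 1)) :
    BB α (uX 1 (-1) α) (uE 1 (-1) α i) = 0 := by
  refine pi2_lin _ _ _ (Units.mk0 _ (hne i))⁻¹ (-(Units.mk0 _ (hne i))⁻¹) ?_
  rw [uE_eq, Units.val_neg, Units.val_inv_eq_inv_val, Units.val_mk0, map_neg]
  have e : cst0 1 (-1) α (α i)⁻¹ * cst0 1 (-1) α (α i) = 1 := by
    rw [← map_mul, inv_mul_cancel₀ (hne i), map_one]
  linear_combination e

theorem b2 (hinj : Function.Injective α) {i j : Fin (r + 1)} (hij : i ≠ j) :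
    BB α (uE 1 (-1) α i) (uE 1 (-1) α j) = 0 := by
  have h0 : α j - α i ≠ 0 := sub_ne_zero.2 (hinj.ne hij.symm)
  refine pi2_lin _ _ _ (Units.mk0 _ h0)⁻¹ (-(Units.mk0 _ h0)⁻¹) ?_
  rw [uE_eq, uE_eq, Units.val_neg, Units.val_inv_eq_inv_val, Units.val_mk0, map_neg]
  have e : cst0 1 (-1) α (α j - α i)⁻¹ * (cst0 1 (-1) α (α j) - cst0 1 (-1) α (α i)) = 1 := by
    rw [← map_sub, ← map_mul, inv_mul_cancel₀ h0, map_one]
  linear_combination e

theorem b3 (h2 : (2 : K) ≠ 0) : BB α (uY 1 (-1) α 0) (uY 1 (-1) α 1) = 0 := by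
  refine pi2_lin _ _ _ (-(Units.mk0 _ h2)⁻¹) (Units.mk0 _ h2)⁻¹ ?_
  rw [uY_eq, uY_eq, Units.val_neg, Units.val_inv_eq_inv_val, Units.val_mk0, map_neg]
  have e : cst0 1 (-1) α (2 : K)⁻¹ * (2 : Opn 1 (-1) α) = 1 := by
    rw [← map_ofNat (cst0 1 (-1) α) 2, ← map_mul, inv_mul_cancel₀ h2, map_one]
  have e0 : cst0 1 (-1) α ((-1) ^ ((0 : Fin 2) : ℕ)) = 1 := by
    rw [show (((0 : Fin 2) : ℕ)) = 0 from rfl, pow_zero, map_one]
  have e1 : cst0 1 (-1) α ((-1) ^ ((1 : Fin 2) : ℕ)) = -1 := by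
    rw [show (((1 : Fin 2) : ℕ)) = 1 from rfl, pow_one, map_neg, map_one]
  rw [e0, e1]
  linear_combination e

theorem b4 (hl : lm α ≠ 0) (f : (Opn 1 (-1) α)ˣ) :
    BB α f (uY 1 (-1) α 0) + BB α f (uY 1 (-1) α 1) + ∑ i, BB α f (uE 1 (-1) α i) = 0 := by
  have h2 := congrArg (fun z => pi2 (cst0 1 (-1) α) (sy f z)) (rel_G hl)
  simp only [sy_mul_right, sy_prod_right, map_add, map_sum, pi2_right, zero_add, sy_one_right,
    map_zero] at h2
  rw [Fin.sum_univ_two] at h2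
  exact h2

section

variable (hl : lm α ≠ 0) (hne : ∀ i, α i ≠ 0) (hinj : Function.Injective α) (h2 : (2 : K) ≠ 0)

include hl h2 in
theorem c1 : ∑ i, BB α (uY 1 (-1) α 0) (uE 1 (-1) α i) = 0 := by
  have h := b4 hl (uY 1 (-1) α 0)
  rwa [BB_self, b3 h2, zero_add, zero_add] at h

include hl hne in
theorem c2 : BB α (uY 1 (-1) α 1) (uX 1 (-1) α) = -BB α (uY 1 (-1) α 0) (uX 1 (-1) α) := by
  have h := b4 hl (uX 1 (-1) α)
  rw [Finset.sum_eq_zero fun i _ => b1 hne i, add_zero] at h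
  rw [BB_swap (uY 1 (-1) α 1), BB_swap (uY 1 (-1) α 0), neg_neg]
  exact (eq_neg_of_add_eq_zero_left h).symm

include hl hinj in
theorem c3 (i : Fin (r + 1)) : BB α (uY 1 (-1) α 1) (uE 1 (-1) α i) =
    -BB α (uY 1 (-1) α 0) (uE 1 (-1) α i) := by
  have h := b4 hl (uE 1 (-1) α i)
  have e : ∑ j, BB α (uE 1 (-1) α i) (uE 1 (-1) α j) = 0 := by
    refine Finset.sum_eq_zero fun j _ => ?_
    by_cases hij : i = j
    · subst hij
      exact BB_self _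
    · exact b2 hinj hij
  rw [e, add_zero] at h
  rw [BB_swap (uY 1 (-1) α 1), BB_swap (uY 1 (-1) α 0), neg_neg]
  exact (eq_neg_of_add_eq_zero_left h).symm

/-- the classes -/
noncomputable def clG (α : Fin (r + 1) → K) (s : Fin (r + 1) × Fin 1) :
    KQ (Opn 1 (-1) α) 2 := symb (sym 1 (-1) α s)

include hl hne hinj in
theorem pi2_cl (s : Fin (r + 1) × Fin 1) : pi2 (cst0 1 (-1) α) (clG α s) =
    (2 : ℚ) • (BB α (uY 1 (-1) α 0) (uE 1 (-1) α s.1) - BB α (uY 1 (-1) α 0) (uX 1 (-1) α)) := by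
  have hs : s.2 = 0 := Subsingleton.elim _ _
  have e : clG α s = sy (uY 1 (-1) α 0 / uY 1 (-1) α 1) (uE 1 (-1) α s.1 / uX 1 (-1) α) := by
    unfold clG
    rw [symb_eq_sy]
    have e0 : sym 1 (-1) α s 0 = uY 1 (-1) α s.2.castSucc / uY 1 (-1) α s.2.succ := rfl
    have e1 : sym 1 (-1) α s 1 = uE 1 (-1) α s.1 / uX 1 (-1) α := rfl
    rw [e0, e1, hs]
    rfl
  have c2' := c2 hl hne
  have c3' := c3 hl hinj s.1
  unfold BB at *
  rw [e, sy_div_left, sy_div_right, sy_div_right, map_sub, map_sub, map_sub, c2', c3', two_smul]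
  abel

include hl hne hinj h2 in
theorem dX_mem [CharZero K] : ∃ z' ∈ Submodule.span ℚ (Set.range (clG α)),
    BB α (uY 1 (-1) α 0) (uX 1 (-1) α) = pi2 (cst0 1 (-1) α) z' := by
  have h1 : pi2 (cst0 1 (-1) α) (∑ i, clG α (i, 0)) =
      -((2 * ((r : ℚ) + 1)) • BB α (uY 1 (-1) α 0) (uX 1 (-1) α)) := by
    rw [map_sum]
    simp only [pi2_cl hl hne hinj]
    rw [← Finset.smul_sum, Finset.sum_sub_distrib, c1 hl h2, Finset.sum_const, Finset.card_univ,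
      Fintype.card_fin, zero_sub, smul_neg, mul_smul]
    have e1 : (r + 1 : ℕ) • BB α (uY 1 (-1) α 0) (uX 1 (-1) α) =
        ((r : ℚ) + 1) • BB α (uY 1 (-1) α 0) (uX 1 (-1) α) := by
      rw [← Nat.cast_smul_eq_nsmul ℚ]
      push_cast
      rfl
    rw [e1]
  have hr : (2 * ((r : ℚ) + 1)) ≠ 0 := by positivity
  refine ⟨(-(2 * ((r : ℚ) + 1))⁻¹) • ∑ i, clG α (i, 0), Submodule.smul_mem _ _
    (Submodule.sum_mem _ fun i _ => Submodule.subset_span ⟨_, rfl⟩), ?_⟩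
  rw [map_smul, h1, neg_smul, smul_neg, neg_neg, smul_smul, inv_mul_cancel₀ hr, one_smul]

include hl hne hinj h2 in
theorem dE_mem [CharZero K] (i : Fin (r + 1)) : ∃ z' ∈ Submodule.span ℚ (Set.range (clG α)),
    BB α (uY 1 (-1) α 0) (uE 1 (-1) α i) = pi2 (cst0 1 (-1) α) z' := by
  obtain ⟨z, hz, e⟩ := dX_mem hl hne hinj h2
  have h1 := pi2_cl hl hne hinj (i, 0)
  refine ⟨(2⁻¹ : ℚ) • clG α (i, 0) + z, Submodule.add_mem _ (Submodule.smul_mem _ _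
    (Submodule.subset_span ⟨_, rfl⟩)) hz, ?_⟩
  rw [map_add, map_smul, h1, ← e, smul_smul, inv_mul_cancel₀ (by norm_num : (2 : ℚ) ≠ 0), one_smul,
    sub_add_cancel]

include hl hne hinj h2 in
theorem red_G [CharZero K] (i j : Option (Option (Fin (r + 1)))) :
    sy (gensG α i) (gensG α j) ∈ Submodule.span ℚ (Set.range (clG α)) ⊔
      (C1 (cst0 1 (-1) α) (LinearMap.id : KQ (Opn 1 (-1) α) 2 →ₗ[ℚ] _) ⊔
        AA (Opn 1 (-1) α)) := by
  have key : ∀ u v : (Opn 1 (-1) α)ˣ, (∃ z' ∈ Submodule.span ℚ (Set.range (clG α)),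
      BB α u v = pi2 (cst0 1 (-1) α) z') → sy u v ∈ Submodule.span ℚ (Set.range (clG α)) ⊔
      (C1 (cst0 1 (-1) α) (LinearMap.id : KQ (Opn 1 (-1) α) 2 →ₗ[ℚ] _) ⊔
        AA (Opn 1 (-1) α)) := by
    rintro u v ⟨z', hz, e⟩
    exact mem_of_pi2 _ hz e
  have hneg : ∀ u v : (Opn 1 (-1) α)ˣ, (∃ z' ∈ Submodule.span ℚ (Set.range (clG α)),
      BB α u v = pi2 (cst0 1 (-1) α) z') → ∃ z' ∈ Submodule.span ℚ (Set.range (clG α)),
      BB α v u = pi2 (cst0 1 (-1) α) z' := by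
    rintro u v ⟨z', hz, e⟩
    exact ⟨-z', Submodule.neg_mem _ hz, by rw [map_neg, ← e, BB_swap]⟩
  have hzero : ∀ u v : (Opn 1 (-1) α)ˣ, BB α u v = 0 →
      ∃ z' ∈ Submodule.span ℚ (Set.range (clG α)), BB α u v = pi2 (cst0 1 (-1) α) z' :=
    fun u v h => ⟨0, Submodule.zero_mem _, by rw [h, map_zero]⟩
  apply key
  rcases i with _ | _ | i <;> rcases j with _ | _ | j
  · exact hzero _ _ (BB_self _)
  · exact dX_mem hl hne hinj h2
  · exact dE_mem hl hne hinj h2 j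
  · exact hneg _ _ (dX_mem hl hne hinj h2)
  · exact hzero _ _ (BB_self _)
  · exact hzero _ _ (b1 hne j)
  · exact hneg _ _ (dE_mem hl hne hinj h2 i)
  · exact hneg _ _ (hzero _ _ (b1 hne i))
  · refine hzero _ _ ?_
    by_cases hij : i = j
    · subst hij
      exact BB_self _
    · exact b2 hinj hij

end

end Pool.Agent.X232.CF.G
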