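import Pool.Agent.X232.CF.G.Det
import Pool.Agent.X232.CF.E.Loop
set_option autoImplicit false

/-!
The ring of the open part `x ≠ 0`: domain, elements divide polynomials in `x`; loops which avoid the
zeros of a given function.
-/

namespace Pool.Agent.X232.CF.G

open Polynomial

open Pool.Agent.TH826.MK (Torus symb circ norm_circ KQ)

open Pool.Agent.TH826.MH (CRing fpol)

open Pool.Agent.TH265.U (Loc toLoc liftLoc liftLoc_toLoc isUnit_toLoc locEqn)

open Pool.Agent.TH265.V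

open Pool.Agent.X232.CU (Av phi exists_dvd)

universe v

section loc

variable {A : Type*} [CommRing A] {u : A}

theorem isDomain_Loc [IsDomain A] (hu : u ≠ 0) : IsDomain (Loc u) := by
  have h1 : IsDomain (Localization.Away u) :=
    IsLocalization.isDomain_localization (powers_le_nonZeroDivisors_of_noZeroDivisors hu)
  have e : Localization.Away u ≃ₐ[A] AdjoinRoot (C u * X - 1) :=
    Localization.awayEquivAdjoin u
  exact e.symm.toMulEquiv.isDomain _

theorem toLoc_injective [IsDomain A] (hu : u ≠ 0) : Function.Injective (toLoc u) := by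
  let L := FractionRing A
  have hinj : Function.Injective (algebraMap A L) := IsFractionRing.injective _ _
  have hne : algebraMap A L u ≠ 0 := by
    rw [Ne, map_eq_zero_iff _ hinj]
    exact hu
  intro x y hxy
  apply hinj
  have h1 := congrArg (liftLoc u (algebraMap A L) hne) hxy
  rwa [liftLoc_toLoc, liftLoc_toLoc] at h1

/-- every element has a representation with a denominator -/
theorem exists_rep_Loc (f : Loc u) : ∃ (r : A) (k : ℕ), f * toLoc u u ^ k = toLoc u r := by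
  obtain ⟨P, hP⟩ := AdjoinRoot.mk_surjective (g := locEqn u) f
  have hroot : AdjoinRoot.mk (locEqn u) (C u) * AdjoinRoot.mk (locEqn u) X = 1 := by
    have h : AdjoinRoot.mk (locEqn u) (locEqn u) = 0 := AdjoinRoot.mk_self
    have h2 : AdjoinRoot.mk (locEqn u) (locEqn u) = AdjoinRoot.mk (locEqn u) (C u) *
        AdjoinRoot.mk (locEqn u) X - 1 := by
      conv_lhs => rw [show AdjoinRoot.mk (locEqn u) (locEqn u) = AdjoinRoot.mk (locEqn u)
        (C u * X - 1) from rfl]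
      rw [map_sub, map_mul, map_one]
    rw [h2, sub_eq_zero] at h
    exact h
  have key : ∀ P : A[X], ∃ (r : A) (k : ℕ), AdjoinRoot.mk (locEqn u) P *
      AdjoinRoot.mk (locEqn u) (C u) ^ k = AdjoinRoot.mk (locEqn u) (C r) := by
    intro P
    induction P using Polynomial.induction_on' with
    | add p q hp hq =>
      obtain ⟨r, k, hr⟩ := hp
      obtain ⟨r', k', hr'⟩ := hq
      refine ⟨r * u ^ k' + r' * u ^ k, k + k', ?_⟩
      rw [map_add, C_add, C_mul, C_mul, C_pow, C_pow, map_add, map_mul, map_mul, map_pow, map_pow,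
        ← hr, ← hr']
      ring
    | monomial m r =>
      refine ⟨r, m, ?_⟩
      rw [← C_mul_X_pow_eq_monomial, map_mul, map_pow]
      calc AdjoinRoot.mk (locEqn u) (C r) * AdjoinRoot.mk (locEqn u) X ^ m *
            AdjoinRoot.mk (locEqn u) (C u) ^ m =
          AdjoinRoot.mk (locEqn u) (C r) * (AdjoinRoot.mk (locEqn u) (C u) *
            AdjoinRoot.mk (locEqn u) X) ^ m := by
            rw [mul_pow]; ring
        _ = AdjoinRoot.mk (locEqn u) (C r) := by rw [hroot, one_pow, mul_one]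
  obtain ⟨r, k, h⟩ := key P
  rw [hP] at h
  exact ⟨r, k, h⟩

end loc

section curve

variable {K : Type v} [Field K] {p r : ℕ} {ζ : K} {α : Fin (r + 1) → K}

theorem phi_one_X : phi (lm α) (rts p ζ α) 1 X = fX p ζ α := CU.phi_X _

/-- polynomials in `x` as functions on the open part -/
noncomputable def xp (p : ℕ) (ζ : K) (α : Fin (r + 1) → K) : K[X] →+* Opn p ζ α :=
  (toLoc (fX p ζ α)).comp (phi (lm α) (rts p ζ α) 1)

theorem xp_X : xp p ζ α X = toLoc (fX p ζ α) (fX p ζ α) := by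
  show toLoc (fX p ζ α) (phi (lm α) (rts p ζ α) 1 X) = _
  rw [phi_one_X]

theorem xp_C (c : K) : xp p ζ α (C c) = cst0 p ζ α c := by
  show toLoc (fX p ζ α) (phi (lm α) (rts p ζ α) 1 (C c)) = _
  rw [CU.phi_C]
  rfl

variable [Infinite K] (hl : lm α ≠ 0) (ha : ∀ k, Function.Injective (rts p ζ α k))

include hl ha

theorem isDomain_Crv : IsDomain (Crv p ζ α) := CU.dom hl ha

theorem phi_inj (c : K[X]) (hc : c ≠ 0) : phi (lm α) (rts p ζ α) 1 c ≠ 0 := by
  intro h0
  have i : Fin (Pool.Agent.TH265.U.rr p r 0 + 1) := 0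
  -- use the place at infinity
  have h1 : CU.pl hl ha 0 i (phi (lm α) (rts p ζ α) 1 c) = 0 := by rw [h0, map_zero]
  have h2 : phi (lm α) (rts p ζ α) (0 + 1) c = CU.ev (lm α) (rts p ζ α) 0 (c.map C) := by
    have := CU.ev_swap (lam := lm α) (a := rts p ζ α) 0 (c.map C)
    rw [Bivariate.swap_map_C, CU.ev_C] at this
    exact this
  have h2' : phi (lm α) (rts p ζ α) 1 c = CU.ev (lm α) (rts p ζ α) 0 (c.map C) := h2
  rw [h2'] at h1
  have hlead : (c.map C : K[X][X]).leadingCoeff = C c.leadingCoeff :=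
    leadingCoeff_map_of_injective C_injective _
  have hne : ((c.map C : K[X][X]).leadingCoeff).eval (rts p ζ α 0 i) ≠ 0 := by
    rw [hlead, eval_C]
    exact leadingCoeff_ne_zero.2 hc
  have h3 := CU.order_ev hl ha 0 i _ hne
  rw [h1, HahnSeries.order_zero] at h3
  have h4 : c.natDegree = 0 := by
    rw [natDegree_map_eq_of_injective C_injective] at h3
    omega
  rw [eq_C_of_natDegree_eq_zero h4] at h1 hc
  rw [map_C, CU.ev_C, CU.phi_C, CU.pl_C] at h1
  have h5 : c.coeff 0 = 0 := HahnSeries.C_injective (by rw [h1, map_zero])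
  exact hc (by rw [h5, C_0])

theorem fX_ne : fX p ζ α ≠ 0 := by
  rw [← phi_one_X]
  exact phi_inj hl ha X X_ne_zero

theorem isDomain_Opn : IsDomain (Opn p ζ α) := by
  have := isDomain_Crv hl ha
  exact isDomain_Loc (fX_ne hl ha)

theorem toLoc_inj : Function.Injective (toLoc (fX p ζ α)) := by
  have := isDomain_Crv hl ha
  exact toLoc_injective (fX_ne hl ha)

/-- every nonzero function divides a nonzero polynomial in `x` -/
theorem exists_dvd_xp {f : Opn p ζ α} (hf : f ≠ 0) : ∃ c : K[X], c ≠ 0 ∧ f ∣ xp p ζ α c := by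
  have hdom := isDomain_Opn hl ha
  obtain ⟨r', k, hr⟩ := exists_rep_Loc f
  have hu := isUnit_toLoc (fX p ζ α)
  have hr0 : r' ≠ 0 := by
    rintro rfl
    rw [map_zero] at hr
    rcases mul_eq_zero.1 hr with h | h
    · exact hf h
    · exact pow_ne_zero _ hu.ne_zero h
  obtain ⟨c, hc, g, hg⟩ := exists_dvd hl ha 1 hr0
  refine ⟨c, hc, toLoc (fX p ζ α) (fX p ζ α) ^ k * toLoc (fX p ζ α) g, ?_⟩
  show toLoc (fX p ζ α) (phi (lm α) (rts p ζ α) 1 c) = _
  rw [hg, map_mul, ← hr]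
  ring

end curve

section avoid

variable {K : Type v} [Field K] {p r : ℕ} {ζ : K} {α : Fin (r + 1) → K}

/-- a polynomial in `x` along a loop -/
theorem e_xp (Γ : Torus (Opn p ζ α) 1) {σ : K →+* ℂ} (hΓ : ∀ θ x, Γ.e θ (cst0 p ζ α x) = σ x)
    (θ : Fin 1 → ℝ) (c : K[X]) :
    Γ.e θ (xp p ζ α c) = c.eval₂ σ (Γ.e θ (toLoc (fX p ζ α) (fX p ζ α))) := by
  have h : (Γ.e θ).comp (xp p ζ α) =
      eval₂RingHom σ (Γ.e θ (toLoc (fX p ζ α) (fX p ζ α))) := by
    refine ringHom_ext' (RingHom.ext fun x => ?_) ?_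
    · show Γ.e θ (xp p ζ α (C x)) = (C x : K[X]).eval₂ σ _
      rw [xp_C, hΓ, eval₂_C]
    · show Γ.e θ (xp p ζ α X) = (X : K[X]).eval₂ σ _
      rw [xp_X, eval₂_X]
  exact congrArg (fun g => g c) h

theorem finite_radii (σ : K →+* ℂ) (z m : ℂ) (hm : m ≠ 0) {c : K[X]} (hc : c ≠ 0) :
    ∃ B : Set ℝ, B.Finite ∧ ∀ d, 0 ≤ d → d ∉ B → ∀ y,
      c.eval₂ σ (z + circ (d * ‖m‖ / 2) y) ≠ 0 := by
  have hg' : c.map σ ≠ 0 := (Polynomial.map_ne_zero_iff σ.injective).2 hc
  have hmp : 0 < ‖m‖ := norm_pos_iff.2 hm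
  refine ⟨(fun w : ℂ => 2 * ‖w - z‖ / ‖m‖) '' {w | (c.map σ).IsRoot w},
    (Polynomial.finite_setOfPred_isRoot hg').image _, fun d hd hB y h => hB ?_⟩
  refine ⟨z + circ (d * ‖m‖ / 2) y, ?_, ?_⟩
  · show (c.map σ).eval _ = 0
    rw [eval_map]
    exact h
  · show 2 * ‖z + circ (d * ‖m‖ / 2) y - z‖ / ‖m‖ = d
    rw [add_sub_cancel_left, norm_circ (by positivity)]
    field_simp

theorem exists_avoid_fam (p q : ℕ) : ∃ c : ℝ, 2 ≤ c ∧
    ∀ {K : Type v} [Field K] [Infinite K] (σ τ : K →+* ℂ) (ζ ω e : K),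
      IsPrimitiveRoot ζ (p + 1) →
      IsPrimitiveRoot ω (q + 1) → c ≤ ‖σ e‖ → ‖τ e‖ * c ≤ 1 →
      lm (al q ω e) ≠ 0 → (∀ k, Function.Injective (rts p ζ (al q ω e) k)) →
      ∀ h : Opn p ζ (al q ω e), h ≠ 0 →
      ∃ Γ : Fin (2 * q + 1 + 1) × Fin p → Torus (Opn p ζ (al q ω e)) 1,
        (∀ t θ x, (Γ t).e θ (cst0 p ζ (al q ω e) x) = pls q σ τ t.1 x) ∧
        (∀ t, Av (Γ t) h) ∧
        (Matrix.of fun t s => (Γ t).reg (symb (sym p ζ (al q ω e) s))).det ≠ 0 := by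
  obtain ⟨c, d0, hc, hd0, H⟩ := exists_det2_fam.{v} p q
  refine ⟨c, hc, ?_⟩
  intro K _ _ σ τ ζ ω e hζ hω hσ hτ hl ha h hh
  obtain ⟨g, hg, h', hgh⟩ := exists_dvd_xp hl ha hh
  have he : e ≠ 0 := by
    rintro rfl
    rw [map_zero, norm_zero] at hσ
    linarith
  have hω0 : ω ≠ 0 := hω.ne_zero (Nat.succ_ne_zero q)
  have hal : ∀ i, al q ω e i ≠ 0 := fun i => mul_ne_zero (pow_ne_zero _ hω0) (pow_ne_zero _ he)
  choose B hB1 hB2 using fun t : Fin (2 * q + 1 + 1) × Fin p =>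
    finite_radii (pls q σ τ t.1) (pls q σ τ t.1 (al q ω e t.1)) (pls q σ τ t.1 (al q ω e t.1))
      ((_root_.map_ne_zero _).2 (hal t.1)) hg
  have hex : ∀ t, ∃ d, d ∈ Set.Ioo (d0 / 2) d0 ∧ d ∉ B t := fun t =>
    (Set.Ioo_infinite (by linarith : d0 / 2 < d0)).exists_notMem_finite (hB1 t)
  choose dd hdd1 hdd2 using hex
  obtain ⟨Γ, h1, h2, h3⟩ := H dd (fun t => (hdd1 t).1.le) (fun t => (hdd1 t).2.le) σ τ ζ ω e hζ hω
    hσ hτ
  refine ⟨Γ, h1, fun t θ hz => ?_, h3⟩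
  have h4 : (Γ t).e θ (xp p ζ (al q ω e) g) = 0 := by
    rw [hgh, map_mul, hz, zero_mul]
  rw [e_xp (Γ t) (h1 t), h2] at h4
  exact hB2 t (dd t) (by linarith [(hdd1 t).1]) (hdd2 t) _ h4

end avoid

end Pool.Agent.X232.CF.G
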