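import Pool.Agent.X232.CF.G.Const
set_option autoImplicit false

/-!
The units of the open part of the curve `(1 - y²) ∏ (1 - x/α_i) = 1`, up to finite index.
-/

namespace Pool.Agent.X232.CF.G

open Polynomial

open Pool.Agent.TH826.MH (CRing fpol fx ux eqn coe_ux prod_eq_one)

open Pool.Agent.TH265.U (rr Loc toLoc liftLoc liftLoc_toLoc isUnit_toLoc)

open Pool.Agent.TH265.V

open Pool.Agent.X232.CU (phi pl xi xi_const ti ti_ne_zero order_ti ti_eq const_eval od_coe)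

open Pool.Agent.X232.CF.E (PS PS_C ti_X order_X PS_ne order_eval_ti eval_ti_ne ord_mul ord_zpow
  ord_pow ord_inv ord_prod)

variable {K : Type*} [Field K] [Infinite K] {r : ℕ} {α : Fin (r + 1) → K} {S : K[X]}
  (h : Hyp α S)

theorem Hyp.pl_fX_ne (k : Fin 2) (i : Fin (rr 1 r k + 1)) :
    pl h.hl h.ha k i (fX 1 (-1) α) ≠ 0 := by
  rw [Ne, map_eq_zero_iff _ (CU.pl_inj h.hl h.ha k i)]
  exact fX_ne h.hl h.ha

/-- the places on the open part -/
noncomputable def plG (k : Fin 2) (i : Fin (rr 1 r k + 1)) : Opn 1 (-1) α →+* HahnSeries ℤ K :=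
  liftLoc (fX 1 (-1) α) (pl h.hl h.ha k i) (h.pl_fX_ne k i)

theorem plG_toLoc (k : Fin 2) (i : Fin (rr 1 r k + 1)) (a : Crv 1 (-1) α) :
    plG h k i (toLoc (fX 1 (-1) α) a) = pl h.hl h.ha k i a := liftLoc_toLoc _ _ _ _

theorem plG_inj (k : Fin 2) (i : Fin (rr 1 r k + 1)) : Function.Injective (plG h k i) := by
  have hdom : IsDomain (Opn 1 (-1) α) := isDomain_Opn h.hl h.ha
  rw [injective_iff_map_eq_zero]
  intro f hf
  obtain ⟨a, n, ha⟩ := exists_rep_Loc f
  have h1 := congrArg (plG h k i) ha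
  rw [map_mul, hf, zero_mul, plG_toLoc] at h1
  have h2 : a = 0 := CU.pl_inj h.hl h.ha k i (by rw [map_zero]; exact h1.symm)
  rw [h2, map_zero] at ha
  exact (mul_eq_zero.1 ha).resolve_right
    (pow_ne_zero _ (isUnit_toLoc (fX 1 (-1) α)).ne_zero)

theorem plG_cst (k : Fin 2) (i : Fin (rr 1 r k + 1)) (c : K) :
    plG h k i (cst0 1 (-1) α c) = HahnSeries.C c :=
  (plG_toLoc h k i _).trans (CU.pl_C _ _ _ _ c)

theorem ord_units (k : Fin 2) (i : Fin (rr 1 r k + 1)) (u : (Crv 1 (-1) α)ˣ) :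
    (plG h k i ((Units.map (toLoc (fX 1 (-1) α) : Crv 1 (-1) α →* Opn 1 (-1) α) u :
      (Opn 1 (-1) α)ˣ) : Opn 1 (-1) α)).order = CU.ord h.hl h.ha k i u := by
  have e : plG h k i ((Units.map (toLoc (fX 1 (-1) α) : Crv 1 (-1) α →* Opn 1 (-1) α) u :
      (Opn 1 (-1) α)ˣ) : Opn 1 (-1) α) = pl h.hl h.ha k i (u : Crv 1 (-1) α) := plG_toLoc h k i _
  rw [e]
  rfl

/-- the places over the `α i` -/
noncomputable def plP (i : Fin (r + 1)) : Opn 1 (-1) α →+* HahnSeries ℤ K :=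
  plG h 1 (i : Fin (rr 1 r 1 + 1))

/-- the places over infinity -/
noncomputable def plQ (j : Fin 2) : Opn 1 (-1) α →+* HahnSeries ℤ K :=
  plG h 0 (j : Fin (rr 1 r 0 + 1))

theorem oE1 (i : Fin (r + 1)) : (plP h i (uE 1 (-1) α i : Opn 1 (-1) α)).order = 2 := by
  have h1 := CU.sum_ord1 h.hl h.ha (i : Fin (rr 1 r 1 + 1))
  exact (ord_units h 1 i _).trans h1

theorem oE1_ne {i j : Fin (r + 1)} (hj : j ≠ i) :
    (plP h i (uE 1 (-1) α j : Opn 1 (-1) α)).order = 0 :=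
  (ord_units h 1 i _).trans (CU.ord_self_ne h.hl h.ha 1 i j hj)

theorem oE0 (i : Fin 2) (j : Fin (r + 1)) :
    (plQ h i (uE 1 (-1) α j : Opn 1 (-1) α)).order = -1 :=
  (ord_units h 0 i _).trans (CU.ord01 h.hl h.ha i j)

theorem oY1 (i : Fin (r + 1)) (j : Fin 2) :
    (plP h i (uY 1 (-1) α j : Opn 1 (-1) α)).order = -1 :=
  (ord_units h 1 i _).trans (CU.ord10 h.hl h.ha i j)

theorem oY0 (i : Fin 2) :
    (plQ h i (uY 1 (-1) α i : Opn 1 (-1) α)).order = (r : ℤ) + 1 :=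
  (ord_units h 0 i _).trans (CU.sum_ord0 h.hl h.ha i)

theorem oY0_ne {i j : Fin 2} (hj : j ≠ i) :
    (plQ h i (uY 1 (-1) α j : Opn 1 (-1) α)).order = 0 :=
  (ord_units h 0 i _).trans (CU.ord_self_ne h.hl h.ha 0 i j hj)

omit [Infinite K] in
theorem coe_uX : (uX 1 (-1) α : Opn 1 (-1) α) = toLoc (fX 1 (-1) α) (fX 1 (-1) α) := rfl

theorem oX0 (i : Fin 2) :
    (plQ h i (uX 1 (-1) α : Opn 1 (-1) α)).order = -1 := by
  have e : plQ h i (uX 1 (-1) α : Opn 1 (-1) α) = ti K :=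
    (plG_toLoc h 0 i _).trans (CU.pl_X_other h.hl h.ha 0 i)
  rw [e, order_ti]

theorem oX1 (i : Fin (r + 1)) :
    (plP h i (uX 1 (-1) α : Opn 1 (-1) α)).order = 0 := by
  have e : plP h i (uX 1 (-1) α : Opn 1 (-1) α) =
      PS K (xi h.hl h.ha 1 (i : Fin (rr 1 r 1 + 1))) :=
    (plG_toLoc h 1 i _).trans (CU.pl_X_self h.hl h.ha 1 i)
  rw [e]
  have hx := xi_const h.hl h.ha 1 (i : Fin (rr 1 r 1 + 1))
  exact od_coe fun hz => h.ne i (hx.symm.trans hz)

/-- functions without zeros and poles at the places are constant -/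
theorem const_G {g : (Opn 1 (-1) α)ˣ}
    (hP : ∀ i, (plP h i (g : Opn 1 (-1) α)).order = 0)
    (hQ : ∀ j, (plQ h j (g : Opn 1 (-1) α)).order = 0) :
    ∃ c : Kˣ, g = cu (cst0 1 (-1) α) c := by
  have hdom : IsDomain (Opn 1 (-1) α) := isDomain_Opn h.hl h.ha
  obtain ⟨a, l, ha⟩ := exists_rep_Loc (g : Opn 1 (-1) α)
  obtain ⟨a', l', ha'⟩ := exists_rep_Loc ((g⁻¹ : (Opn 1 (-1) α)ˣ) : Opn 1 (-1) α)
  have hP' : ∀ i, (plP h i ((g⁻¹ : (Opn 1 (-1) α)ˣ) : Opn 1 (-1) α)).order = 0 := by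
    intro i
    rw [ord_inv, hP, neg_zero]
  have hQ' : ∀ j, (plQ h j ((g⁻¹ : (Opn 1 (-1) α)ˣ) : Opn 1 (-1) α)).order = 0 := by
    intro i
    rw [ord_inv, hQ, neg_zero]
  have key : ∀ (k : Fin 2) (i : Fin (rr 1 r k + 1)) (u : (Opn 1 (-1) α)ˣ) (a : Crv 1 (-1) α)
      (l : ℕ), (plG h k i (u : Opn 1 (-1) α)).order = 0 →
      (u : Opn 1 (-1) α) * toLoc (fX 1 (-1) α) (fX 1 (-1) α) ^ l = toLoc (fX 1 (-1) α) a →
      (pl h.hl h.ha k i a).order = l * (plG h k i (uX 1 (-1) α : Opn 1 (-1) α)).order := by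
    intro k i u a l hu hua
    have e : ((u * uX 1 (-1) α ^ l : (Opn 1 (-1) α)ˣ) : Opn 1 (-1) α) =
        toLoc (fX 1 (-1) α) a := by
      rw [Units.val_mul, Units.val_pow_eq_pow_val, coe_uX, hua]
    have e2 := ord_mul (plG h k i) u (uX 1 (-1) α ^ l)
    rw [e, plG_toLoc, ord_pow, hu, zero_add] at e2
    exact e2
  have haa : a * a' = fX 1 (-1) α ^ (l + l') := by
    apply toLoc_inj h.hl h.ha
    rw [map_mul, map_pow, ← ha, ← ha', pow_add]
    have h1 : (g : Opn 1 (-1) α) * ((g⁻¹ : (Opn 1 (-1) α)ˣ) : Opn 1 (-1) α) = 1 :=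
      Units.mul_inv g
    linear_combination (toLoc (fX 1 (-1) α) (fX 1 (-1) α) ^ l *
      toLoc (fX 1 (-1) α) (fX 1 (-1) α) ^ l') * h1
  have x1 : ∀ i : Fin (rr 1 r 1 + 1), (plG h 1 i (uX 1 (-1) α : Opn 1 (-1) α)).order = 0 :=
    fun i => oX1 h i
  have x0 : ∀ i : Fin (rr 1 r 0 + 1), (plG h 0 i (uX 1 (-1) α : Opn 1 (-1) α)).order = -1 :=
    fun i => oX0 h i
  obtain ⟨c, hc, e⟩ := h.const_aux haa
    (fun i => by rw [key 1 i g a l (hP i) ha, x1, mul_zero])
    (fun i => by rw [key 1 i _ a' l' (hP' i) ha', x1, mul_zero])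
    (fun j => by rw [key 0 j g a l (hQ j) ha, x0]; omega)
    (fun j => by rw [key 0 j _ a' l' (hQ' j) ha', x0]; omega)
  refine ⟨Units.mk0 c hc, Units.ext ?_⟩
  rw [coe_cu, Units.val_mk0]
  refine mul_right_cancel₀ (pow_ne_zero l (isUnit_toLoc (fX 1 (-1) α)).ne_zero) ?_
  rw [ha, e, map_mul, map_pow]
  rw [CU.phi_C]
  rfl

/-- the generators -/
noncomputable def gensG (α : Fin (r + 1) → K) :
    Option (Option (Fin (r + 1))) → (Opn 1 (-1) α)ˣ :=
  fun j => j.elim (uY 1 (-1) α 0) fun j => j.elim (uX 1 (-1) α) (uE 1 (-1) α)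

omit [Infinite K] in
theorem prod_gensG (n : Option (Option (Fin (r + 1))) → ℤ) : ∏ j, gensG α j ^ n j =
    uY 1 (-1) α 0 ^ n none * (uX 1 (-1) α ^ n (some none) *
      ∏ i, uE 1 (-1) α i ^ n (some (some i))) := by
  rw [Fintype.prod_option, Fintype.prod_option]
  rfl

include h in
theorem units_G (f : (Opn 1 (-1) α)ˣ) :
    ∃ (N : ℕ) (n : Option (Option (Fin (r + 1))) → ℤ) (c : Kˣ), 0 < N ∧
    f ^ N = cu (cst0 1 (-1) α) c * ∏ j, gensG α j ^ n j := by
  set o : Fin (r + 1) → ℤ := fun i => (plP h i (f : Opn 1 (-1) α)).order with ho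
  set op : ℤ := (plQ h 0 (f : Opn 1 (-1) α)).order with hop
  set om : ℤ := (plQ h 1 (f : Opn 1 (-1) α)).order with hom
  set ne : Fin (r + 1) → ℤ := fun i => (op - om) + ((r : ℤ) + 1) * o i with hne
  set ny : ℤ := 2 * (op - om) with hny
  set nx : ℤ := -(2 * ((r : ℤ) + 1) * om + ∑ i, ne i) with hnx
  set n : Option (Option (Fin (r + 1))) → ℤ :=
    fun j => j.elim ny fun j => j.elim nx ne with hn
  set g : (Opn 1 (-1) α)ˣ := f ^ (2 * (r + 1)) * (∏ j, gensG α j ^ n j)⁻¹ with hg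
  have hprod : (∏ j, gensG α j ^ n j) = uY 1 (-1) α 0 ^ ny * (uX 1 (-1) α ^ nx *
      ∏ i, uE 1 (-1) α i ^ ne i) := prod_gensG n
  have hQ : ∀ j, (plQ h j (g : Opn 1 (-1) α)).order = 0 := by
    intro i
    have e1 : ∑ j, (plQ h i ((uE 1 (-1) α j ^ ne j : (Opn 1 (-1) α)ˣ) :
        Opn 1 (-1) α)).order = -∑ j, ne j := by
      rw [← Finset.sum_neg_distrib]
      refine Finset.sum_congr rfl fun j _ => ?_
      rw [ord_zpow, oE0 h i j]
      ring
    rw [hg, ord_mul, ord_inv, hprod, ord_mul, ord_mul, ord_zpow, ord_zpow, ord_prod, ord_pow,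
      oX0 h i, e1]
    have hi : i = 0 ∨ i = 1 := by
      fin_cases i
      · exact Or.inl rfl
      · exact Or.inr rfl
    rcases hi with rfl | rfl
    · rw [oY0 h 0, ← hop, hnx, hny]
      push_cast
      ring
    · rw [oY0_ne h (by decide), ← hom, hnx]
      push_cast
      ring
  have hP : ∀ i, (plP h i (g : Opn 1 (-1) α)).order = 0 := by
    intro i
    have e1 : ∑ j, (plP h i ((uE 1 (-1) α j ^ ne j : (Opn 1 (-1) α)ˣ) :
        Opn 1 (-1) α)).order = 2 * ne i := by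
      rw [Finset.sum_eq_single i]
      · rw [ord_zpow, oE1 h i]
        ring
      · intro j _ hj
        rw [ord_zpow, oE1_ne h hj, mul_zero]
      · intro hh
        exact absurd (Finset.mem_univ i) hh
    rw [hg, ord_mul, ord_inv, hprod, ord_mul, ord_mul, ord_zpow, ord_zpow, ord_prod, ord_pow,
      oX1 h i, e1, oY1 h i 0]
    have e2 : (plP h i (f : Opn 1 (-1) α)).order = o i := rfl
    rw [e2, hny, hne]
    push_cast
    ring
  obtain ⟨c, hc⟩ := const_G h hP hQ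
  refine ⟨2 * (r + 1), n, c, by omega, ?_⟩
  rw [← hc, hg, inv_mul_cancel_right]

/-- all places -/
noncomputable def plA (P : Fin (r + 1) ⊕ Fin 2) : Opn 1 (-1) α →+* HahnSeries ℤ K :=
  Sum.elim (plP h) (plQ h) P

theorem rank_G [CharZero K] (v : Option (Option (Fin (r + 1))) → ℚ)
    (hv : ∀ P, ∑ j, ((plA h P (gensG α j : Opn 1 (-1) α)).order : ℚ) * v j = 0) : v = 0 := by
  have h1 : ∀ i : Fin (r + 1), 2 * v (some (some i)) - v none = 0 := by
    intro i
    have h2 := hv (Sum.inl i)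
    rw [Fintype.sum_option, Fintype.sum_option] at h2
    have e0 : (plA h (Sum.inl i) (gensG α none : Opn 1 (-1) α)).order = -1 := oY1 h i 0
    have e1 : (plA h (Sum.inl i) (gensG α (some none) : Opn 1 (-1) α)).order = 0 := oX1 h i
    have e2 : ∀ m, (plA h (Sum.inl i) (gensG α (some (some m)) : Opn 1 (-1) α)).order =
        if m = i then 2 else 0 := by
      intro m
      by_cases hm : m = i
      · subst hm
        rw [if_pos rfl]
        exact oE1 h m
      · rw [if_neg hm]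
        exact oE1_ne h hm
    simp only [e0, e1, e2] at h2
    rw [Finset.sum_eq_single i] at h2
    · rw [if_pos rfl] at h2
      push_cast at h2
      linarith
    · intro m _ hm
      rw [if_neg hm]
      simp
    · intro hh
      exact absurd (Finset.mem_univ i) hh
  have h0 : ∀ j : Fin 2,
      ((plQ h j (uY 1 (-1) α 0 : Opn 1 (-1) α)).order : ℚ) * v none - v (some none) -
        ∑ i, v (some (some i)) = 0 := by
    intro j
    have h2 := hv (Sum.inr j)
    rw [Fintype.sum_option, Fintype.sum_option] at h2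
    have e1 : (plA h (Sum.inr j) (gensG α (some none) : Opn 1 (-1) α)).order = -1 := oX0 h j
    have e2 : ∀ m, (plA h (Sum.inr j) (gensG α (some (some m)) : Opn 1 (-1) α)).order = -1 :=
      fun m => oE0 h j m
    simp only [e1, e2] at h2
    push_cast at h2
    have e3 : ∑ i, (-1 : ℚ) * v (some (some i)) = -∑ i, v (some (some i)) := by
      rw [← Finset.mul_sum]
      ring
    rw [e3] at h2
    have h3 : ((plQ h j (uY 1 (-1) α 0 : Opn 1 (-1) α)).order : ℚ) * v none +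
        (-1 * v (some none) + -∑ i, v (some (some i))) = 0 := h2
    linarith
  have a0 := h0 0
  have a1 := h0 1
  rw [oY0 h 0] at a0
  rw [oY0_ne h (by decide)] at a1
  push_cast at a0 a1
  have hr : (0 : ℚ) < (r : ℚ) + 1 := by positivity
  have hy : v none = 0 := by
    have : ((r : ℚ) + 1) * v none = 0 := by linarith
    exact (mul_eq_zero.1 this).resolve_left hr.ne'
  have he : ∀ i : Fin (r + 1), v (some (some i)) = 0 := by
    intro i
    have := h1 i
    rw [hy] at this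
    linarith
  have hx : v (some none) = 0 := by
    simp only [he, Finset.sum_const_zero] at a1
    linarith
  funext j
  rcases j with _ | _ | i
  · exact hy
  · exact hx
  · exact he i

theorem unif_G (P : Fin (r + 1) ⊕ Fin 2) : ∃ a, (plA h P a).order = 1 ∨
    (plA h P a).order = -1 := by
  rcases P with i | j
  · exact ⟨_, Or.inr (oY1 h i 0)⟩
  · exact ⟨_, Or.inr (oX0 h j)⟩

theorem inj_G (P : Fin (r + 1) ⊕ Fin 2) : Function.Injective (plA h P) := by
  rcases P with i | j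
  · exact plG_inj h 1 i
  · exact plG_inj h 0 j

theorem cst_G (P : Fin (r + 1) ⊕ Fin 2) (c : K) : plA h P (cst0 1 (-1) α c) =
    HahnSeries.C c := by
  rcases P with i | j
  · exact plG_cst h 1 i c
  · exact plG_cst h 0 j c

end Pool.Agent.X232.CF.G
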